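import Pool.Agent.LSB.Stmts
import Pool.Agent.LIS.PhOne

namespace Pool.Agent.LSB

open Finset Pool.Agent.LIS

open scoped Classical in
theorem cho_proof : Stmt_CHO := by
  intro X Y n lam a b A B τ hn hτ hτ1 hZ hS
  have hn' : (0 : ℝ) < n := by exact_mod_cast hn
  set Z : ℝ := S2 A B (gd a b lam) with hZdef
  -- the value of a triple
  set G : Finset (Fin n) → X → Y → ℝ := fun I x y =>
    1 - (if ((a x ∩ b y) \ I).Nonempty then 1 else 0) / (2 * τ) with hG
  have hpt : ∀ x ∈ A, ∀ y ∈ B,
      gd a b lam x y - bw a b lam x y / (2 * τ) ≤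
      ∑ I ∈ (univ : Finset (Fin n)).powersetCard lam,
        if I ⊆ a x ∩ b y then G I x y else 0 := by
    intro x _ y _
    unfold gd bw
    set m : ℕ := (a x ∩ b y).card with hm
    have h1 : (∑ I ∈ (univ : Finset (Fin n)).powersetCard lam,
        if I ⊆ a x ∩ b y then G I x y else 0) =
        ((m.choose lam : ℕ) : ℝ) * (1 - (if lam < m then 1 else 0) / (2 * τ)) := by
      rw [← Finset.sum_filter]
      have h2 : ((univ : Finset (Fin n)).powersetCard lam).filter (fun I => I ⊆ a x ∩ b y) =
          (a x ∩ b y).powersetCard lam := by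
        ext I
        simp only [Finset.mem_filter, Finset.mem_powersetCard]
        constructor
        · rintro ⟨⟨_, h3⟩, h4⟩; exact ⟨h4, h3⟩
        · rintro ⟨h4, h3⟩; exact ⟨⟨Finset.subset_univ _, h3⟩, h4⟩
      rw [h2]
      have h5 : ∀ I ∈ (a x ∩ b y).powersetCard lam, G I x y =
          1 - (if lam < m then 1 else 0) / (2 * τ) := by
        intro I hI
        obtain ⟨hI1, hI2⟩ := Finset.mem_powersetCard.mp hI
        have h6 : ((a x ∩ b y) \ I).card = m - lam := by
          rw [Finset.card_sdiff_of_subset hI1, hI2]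
        have h7 : ((a x ∩ b y) \ I).Nonempty ↔ lam < m := by
          rw [← Finset.card_pos, h6]; omega
        simp only [hG]
        simp only [h7]
      rw [Finset.sum_congr rfl h5, Finset.sum_const, Finset.card_powersetCard, nsmul_eq_mul]
    rw [h1]
    rcases lt_trichotomy m lam with hlt | heq | hgt
    · rw [if_neg (by omega), if_neg (by omega), if_neg (by omega)]
      have h2 : m.choose lam = 0 := Nat.choose_eq_zero_of_lt hlt
      rw [h2]
      simp
    · rw [if_pos heq, if_neg (by omega), if_neg (by omega), heq]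
      simp
    · rw [if_neg (by omega), if_pos hgt, if_pos hgt]
      have hc0 : (0 : ℝ) ≤ ((m.choose lam : ℕ) : ℝ) := Nat.cast_nonneg _
      have e : ((m.choose lam : ℕ) : ℝ) * (1 - 1 / (2 * τ)) =
          ((m.choose lam : ℕ) : ℝ) - ((m.choose lam : ℕ) : ℝ) / (2 * τ) := by ring
      rw [e]
      linarith
  -- total
  have htot : Z / 2 ≤ ∑ I ∈ (univ : Finset (Fin n)).powersetCard lam,
      S2 A B (fun x y => if I ⊆ a x ∩ b y then G I x y else 0) := by
    have h1 : ∑ I ∈ (univ : Finset (Fin n)).powersetCard lam,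
        S2 A B (fun x y => if I ⊆ a x ∩ b y then G I x y else 0) =
        S2 A B (fun x y => ∑ I ∈ (univ : Finset (Fin n)).powersetCard lam,
          if I ⊆ a x ∩ b y then G I x y else 0) := by
      unfold S2
      rw [Finset.sum_comm]
      apply Finset.sum_congr rfl
      intro x _
      rw [Finset.sum_comm]
    rw [h1]
    have h2 : S2 A B (fun x y => gd a b lam x y - bw a b lam x y / (2 * τ)) ≤
        S2 A B (fun x y => ∑ I ∈ (univ : Finset (Fin n)).powersetCard lam,
          if I ⊆ a x ∩ b y then G I x y else 0) :=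
      Finset.sum_le_sum fun x hx => Finset.sum_le_sum fun y hy => hpt x hx y hy
    refine le_trans ?_ h2
    have h3 : S2 A B (fun x y => gd a b lam x y - bw a b lam x y / (2 * τ)) =
        Z - S2 A B (bw a b lam) / (2 * τ) := by
      rw [hZdef]
      unfold S2
      rw [Finset.sum_div]
      simp_rw [Finset.sum_div, Finset.sum_sub_distrib]
    rw [h3]
    have h5 : S2 A B (bw a b lam) / (2 * τ) ≤ Z / 2 := by
      rw [div_le_iff₀ (by positivity)]
      linarith
    linarith
  -- pigeonhole
  have hne : ((univ : Finset (Fin n)).powersetCard lam).Nonempty := by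
    by_contra hcon
    rw [Finset.not_nonempty_iff_eq_empty] at hcon
    rw [hcon, Finset.sum_empty] at htot
    linarith
  have hcard : ((univ : Finset (Fin n)).powersetCard lam).card = n.choose lam := by
    rw [Finset.card_powersetCard, Finset.card_univ, Fintype.card_fin]
  have hCpos : (0 : ℝ) < (n.choose lam : ℕ) := by
    rw [← hcard]; exact_mod_cast hne.card_pos
  obtain ⟨I, hI, hIv⟩ : ∃ I ∈ (univ : Finset (Fin n)).powersetCard lam,
      Z / (2 * (n.choose lam : ℕ)) ≤
        S2 A B (fun x y => if I ⊆ a x ∩ b y then G I x y else 0) := by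
    apply Finset.exists_le_of_sum_le hne
    rw [Finset.sum_const, hcard, nsmul_eq_mul]
    refine le_trans (le_of_eq ?_) htot
    field_simp
  have hIcard : I.card = lam := (Finset.mem_powersetCard.mp hI).2
  set A₁ : Finset X := A.filter fun x => I ⊆ a x with hA₁
  set B₁ : Finset Y := B.filter fun y => I ⊆ b y with hB₁
  set a' : X → Finset (Fin n) := fun x => a x \ I with ha'
  have hab : ∀ x y, a' x ∩ b y = (a x ∩ b y) \ I := by
    intro x y
    ext e; simp only [ha', Finset.mem_inter, Finset.mem_sdiff]; tauto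
  have hrestr : S2 A B (fun x y => if I ⊆ a x ∩ b y then G I x y else 0) = S2 A₁ B₁ (G I) := by
    unfold S2
    rw [hA₁, Finset.sum_filter]
    apply Finset.sum_congr rfl
    intro x _
    by_cases hx : I ⊆ a x
    · rw [if_pos hx, hB₁, Finset.sum_filter]
      apply Finset.sum_congr rfl
      intro y _
      beta_reduce
      by_cases hy : I ⊆ b y
      · rw [if_pos hy, if_pos (Finset.subset_inter hx hy)]
      · rw [if_neg hy, if_neg]
        intro h; exact hy (h.trans Finset.inter_subset_right)
    · rw [if_neg hx]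
      apply Finset.sum_eq_zero
      intro y _
      beta_reduce
      rw [if_neg]
      intro h; exact hx (h.trans Finset.inter_subset_left)
  have hGsum : S2 A₁ B₁ (G I) = (A₁.card : ℝ) * B₁.card - S2 A₁ B₁ (wd a' b) / (2 * τ) := by
    unfold S2
    simp only [hG, wd, hab]
    rw [Finset.sum_div]
    simp_rw [Finset.sum_div, Finset.sum_sub_distrib]
    simp
  rw [hrestr, hGsum] at hIv
  have hVs0 : 0 ≤ S2 A₁ B₁ (wd a' b) := S2_nonneg fun x _ y _ => wd_nonneg _ _ x y
  have hVd0 : 0 ≤ S2 A₁ B₁ (wd a' b) / (2 * τ) := by positivity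
  have hZ1 : Z / (2 * (n.choose lam : ℕ)) ≤ (A₁.card : ℝ) * B₁.card := by
    linarith
  have hZpos : 0 < (A₁.card : ℝ) * B₁.card := lt_of_lt_of_le (by positivity) hZ1
  have hA1ne : A₁.Nonempty := by
    by_contra hcon
    rw [Finset.not_nonempty_iff_eq_empty] at hcon
    rw [hcon] at hZpos
    simp at hZpos
  have hB1ne : B₁.Nonempty := by
    by_contra hcon
    rw [Finset.not_nonempty_iff_eq_empty] at hcon
    rw [hcon] at hZpos
    simp at hZpos
  have hZ0 : 0 ≤ Z / (2 * (n.choose lam : ℕ)) := by positivity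
  have hV : av A₁ B₁ (wd a' b) ≤ 2 * τ := by
    unfold av
    rw [div_le_iff₀ hZpos]
    have h1 : S2 A₁ B₁ (wd a' b) / (2 * τ) ≤ (A₁.card : ℝ) * B₁.card := by linarith
    rw [div_le_iff₀ (by positivity)] at h1
    linarith
  have hPh : Ph a' b A₁ B₁ ≤ √(n * (2 * τ)) := by
    set s : ℝ := √((2 * τ) / n) with hs
    have hs0 : 0 < s := Real.sqrt_pos.mpr (by positivity)
    have hss : s * s = (2 * τ) / n := Real.mul_self_sqrt (by positivity)
    have h1 := Ph_le a' b A₁ B₁ Finset.univ (fun x _ => Finset.subset_univ _)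
      (wd a' b) (fun x _ y _ hne => by
        unfold wd
        rw [if_pos hne, div_le_one (by exact_mod_cast hne.card_pos)]
        exact_mod_cast hne.card_pos)
      (fun x _ y _ => wd_nonneg _ _ x y) s hs0
    rw [Finset.card_univ, Fintype.card_fin] at h1
    have h2 : √(n * (2 * τ)) = s * n := by
      rw [Real.sqrt_eq_iff_mul_self_eq (by positivity) (by positivity)]
      have : s * n * (s * n) = (s * s) * (n * n) := by ring
      rw [this, hss]
      field_simp
    have h3 : (2 * τ) / s = s * n := by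
      rw [div_eq_iff hs0.ne']
      have : s * n * s = (s * s) * n := by ring
      rw [this, hss]
      field_simp
    have h4 : av A₁ B₁ (wd a' b) / s ≤ (2 * τ) / s :=
      div_le_div_of_nonneg_right hV hs0.le
    rw [h2]
    rw [h3] at h4
    linarith
  obtain ⟨A₂, hA₂, B₂, hB₂, hdisj, hbig, -⟩ := rot a' b (fun _ _ => 0) A₁ B₁ hA1ne hB1ne
    (fun x _ y _ => le_refl _) (hV.trans (by linarith))
  refine ⟨A₂, hA₂.trans (Finset.filter_subset _ _), B₂, hB₂.trans (Finset.filter_subset _ _), I,
    hIcard, ?_, ?_⟩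
  · intro x hx y hy
    have h1 := hdisj x hx y hy
    rw [Finset.not_nonempty_iff_eq_empty, hab, Finset.sdiff_eq_empty_iff_subset] at h1
    have hx1 : I ⊆ a x := (Finset.mem_filter.mp (hA₂ hx)).2
    have hy1 : I ⊆ b y := (Finset.mem_filter.mp (hB₂ hy)).2
    exact Finset.Subset.antisymm h1 (Finset.subset_inter hx1 hy1)
  · refine le_trans ?_ hbig
    have h1 : 3 / 4 * Real.exp (-(3072 * √(n * (2 * τ)))) ≤
        3 / 4 * Real.exp (-(3072 * Ph a' b A₁ B₁)) := by
      apply mul_le_mul_of_nonneg_left _ (by norm_num)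
      apply Real.exp_le_exp.mpr
      linarith
    exact mul_le_mul h1 hZ1 hZ0 (by positivity)

end Pool.Agent.LSB
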