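import Pool.Agent.LSB.Stmts

set_option autoImplicit false

namespace Pool.Agent.LSB

open Finset Pool.Agent.LIS

namespace CLN_

lemma key {κ : ℕ} {c s : ℝ} (hs : 0 ≤ s) (hc0 : 0 ≤ c) (hc : c ≤ s ^ κ) :
    c * (1 - s) ≤ 1 / ((κ : ℝ) + 1) := by
  have hk : (0 : ℝ) < (κ : ℝ) + 1 := by positivity
  rcases le_total 1 s with h1 | h1
  · have : c * (1 - s) ≤ 0 := mul_nonpos_of_nonneg_of_nonpos hc0 (by linarith)
    exact this.trans (by positivity)
  · rw [le_div_iff₀ hk]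
    have h2 : ((κ : ℝ) + 1) * s ^ κ ≤ ∑ i ∈ Finset.range (κ + 1), s ^ i := by
      have h3 : ∑ _i ∈ Finset.range (κ + 1), s ^ κ ≤ ∑ i ∈ Finset.range (κ + 1), s ^ i :=
        Finset.sum_le_sum fun i hi =>
          pow_le_pow_of_le_one hs h1 (Nat.lt_succ_iff.1 (Finset.mem_range.1 hi))
      rw [Finset.sum_const, Finset.card_range, nsmul_eq_mul] at h3
      push_cast at h3
      exact h3
    have h4 := geom_sum_mul_neg s (κ + 1)
    have h5 : 0 ≤ s ^ (κ + 1) := pow_nonneg hs _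
    have h6 : c * (1 - s) ≤ s ^ κ * (1 - s) := mul_le_mul_of_nonneg_right hc (by linarith)
    have h7 : ((κ : ℝ) + 1) * s ^ κ * (1 - s) ≤ 1 := by
      refine (mul_le_mul_of_nonneg_right h2 (by linarith)).trans ?_
      rw [h4]; linarith
    have h8 : c * (1 - s) * ((κ : ℝ) + 1) ≤ s ^ κ * (1 - s) * ((κ : ℝ) + 1) :=
      mul_le_mul_of_nonneg_right h6 hk.le
    linarith

variable {X Y : Type}

open scoped Classical in
lemma rows {A0 A1 : Finset X} {B : Finset Y} (g : X → Y → ℝ) (t : ℝ) (h : A1 ⊆ A0)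
    (hB : B.Nonempty) :
    (A0.card : ℝ) * (av A0 B g + t) = (A1.card : ℝ) * (av A1 B g + t) +
      ((A0 \ A1).card : ℝ) * (av (A0 \ A1) B g + t) := by
  have hB0 : (B.card : ℝ) ≠ 0 := by
    have := hB.card_pos
    positivity
  have e1 : S2 A0 B g = S2 A1 B g + S2 (A0 \ A1) B g := by
    unfold S2
    rw [← Finset.sum_sdiff h, add_comm]
  have e2 : (A0.card : ℝ) = (A1.card : ℝ) + ((A0 \ A1).card : ℝ) := by
    have := Finset.card_sdiff_add_card_eq_card h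
    have h3 : ((A0 \ A1).card : ℝ) + (A1.card : ℝ) = (A0.card : ℝ) := by exact_mod_cast this
    linarith
  have c0 := card_mul_av A0 B g
  have c1 := card_mul_av A1 B g
  have c2 := card_mul_av (A0 \ A1) B g
  apply mul_left_cancel₀ hB0
  have e3 : (B.card : ℝ) * ((A0.card : ℝ) * (av A0 B g + t)) =
      S2 A0 B g + (B.card : ℝ) * (A0.card : ℝ) * t := by rw [← c0]; ring
  have e4 : (B.card : ℝ) * ((A1.card : ℝ) * (av A1 B g + t) +
      ((A0 \ A1).card : ℝ) * (av (A0 \ A1) B g + t)) =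
      S2 A1 B g + S2 (A0 \ A1) B g +
        (B.card : ℝ) * ((A1.card : ℝ) + ((A0 \ A1).card : ℝ)) * t := by
    rw [← c1, ← c2]; ring
  rw [e3, e4, e1, e2]

open scoped Classical in
lemma cols {A : Finset X} {B0 B1 : Finset Y} (g : X → Y → ℝ) (t : ℝ) (h : B1 ⊆ B0)
    (hA : A.Nonempty) :
    (B0.card : ℝ) * (av A B0 g + t) = (B1.card : ℝ) * (av A B1 g + t) +
      ((B0 \ B1).card : ℝ) * (av A (B0 \ B1) g + t) := by
  have hA0 : (A.card : ℝ) ≠ 0 := by
    have := hA.card_pos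
    positivity
  have e1 : S2 A B0 g = S2 A B1 g + S2 A (B0 \ B1) g := by
    unfold S2
    rw [← Finset.sum_add_distrib]
    refine Finset.sum_congr rfl fun x _ => ?_
    rw [← Finset.sum_sdiff h, add_comm]
  have e2 : (B0.card : ℝ) = (B1.card : ℝ) + ((B0 \ B1).card : ℝ) := by
    have := Finset.card_sdiff_add_card_eq_card h
    have h3 : ((B0 \ B1).card : ℝ) + (B1.card : ℝ) = (B0.card : ℝ) := by exact_mod_cast this
    linarith
  have c0 := card_mul_av A B0 g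
  have c1 := card_mul_av A B1 g
  have c2 := card_mul_av A (B0 \ B1) g
  apply mul_left_cancel₀ hA0
  have e3 : (A.card : ℝ) * ((B0.card : ℝ) * (av A B0 g + t)) =
      S2 A B0 g + (A.card : ℝ) * (B0.card : ℝ) * t := by rw [← c0]; ring
  have e4 : (A.card : ℝ) * ((B1.card : ℝ) * (av A B1 g + t) +
      ((B0 \ B1).card : ℝ) * (av A (B0 \ B1) g + t)) =
      S2 A B1 g + S2 A (B0 \ B1) g +
        (A.card : ℝ) * ((B1.card : ℝ) + ((B0 \ B1).card : ℝ)) * t := by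
    rw [← c1, ← c2]; ring
  rw [e3, e4, e1, e2]

/-- one step: `N G = n₁ G₁ + m G₂`, the part `m` is small and expensive -/
lemma step {N n₁ m G G₁ G₂ β w : ℝ} {κ : ℕ} (hN : 0 < N) (hm : 0 ≤ m) (hβ : 0 < β)
    (hG₂ : 0 ≤ G₂) (hsum : N = n₁ + m) (hw : 7 / 8 ≤ w)
    (hn : 7 * N ≤ 8 * n₁) (e : N * G = n₁ * G₁ + m * G₂)
    (hmax : w * (m / N) ≤ (G₂ / β) ^ κ) {a : ℝ} (hG : G ≤ β * (1 + a)) (ha : 0 ≤ a) :
    G₁ ≤ β * (1 + 8 / 7 * (a + 8 / 7 / ((κ : ℝ) + 1))) := by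
  have hk : (0 : ℝ) < (κ : ℝ) + 1 := by positivity
  have hc : 0 ≤ m / N := div_nonneg hm hN.le
  have h1 := key (κ := κ) (c := w * (m / N)) (s := G₂ / β) (div_nonneg hG₂ hβ.le)
    (mul_nonneg (by linarith) hc) hmax
  -- `(m / N) (1 - s) ≤ (8/7) / (κ+1)`
  have h2 : (m / N) * (1 - G₂ / β) ≤ 8 / 7 / ((κ : ℝ) + 1) := by
    rcases le_total 0 (1 - G₂ / β) with h3 | h3
    · have h4 : 7 / 8 * ((m / N) * (1 - G₂ / β)) ≤ w * (m / N) * (1 - G₂ / β) := by
        have := mul_le_mul_of_nonneg_right hw (mul_nonneg hc h3)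
        linarith
      have h5 : 8 / 7 / ((κ : ℝ) + 1) = 8 / 7 * (1 / ((κ : ℝ) + 1)) := by ring
      rw [h5]
      linarith
    · have : (m / N) * (1 - G₂ / β) ≤ 0 := mul_nonpos_of_nonneg_of_nonpos hc h3
      exact this.trans (by positivity)
  -- multiply by `N β`
  have h3 : m * β - m * G₂ ≤ N * β * (8 / 7 / ((κ : ℝ) + 1)) := by
    have h4 : N * β * ((m / N) * (1 - G₂ / β)) = m * β - m * G₂ := by
      field_simp
    rw [← h4]
    exact mul_le_mul_of_nonneg_left h2 (by positivity)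
  have hn1 : 0 < n₁ := by linarith
  have h5 : n₁ * G₁ ≤ n₁ * β + N * β * (a + 8 / 7 / ((κ : ℝ) + 1)) := by
    have h6 : N * G ≤ N * (β * (1 + a)) := mul_le_mul_of_nonneg_left hG hN.le
    have h7 : N * (β * (1 + a)) = (n₁ + m) * β + N * β * a := by rw [← hsum]; ring
    have h8 : N * β * (a + 8 / 7 / ((κ : ℝ) + 1)) =
      N * β * a + N * β * (8 / 7 / ((κ : ℝ) + 1)) := by ring
    rw [h8]
    linarith
  have h9 : N * β * (a + 8 / 7 / ((κ : ℝ) + 1)) ≤
      8 / 7 * n₁ * β * (a + 8 / 7 / ((κ : ℝ) + 1)) := by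
    have h10 : 0 ≤ β * (a + 8 / 7 / ((κ : ℝ) + 1)) := by positivity
    have h11 : N ≤ 8 / 7 * n₁ := by linarith
    have := mul_le_mul_of_nonneg_right h11 h10
    linarith
  have h12 : n₁ * G₁ ≤ n₁ * (β * (1 + 8 / 7 * (a + 8 / 7 / ((κ : ℝ) + 1)))) := by
    have : n₁ * (β * (1 + 8 / 7 * (a + 8 / 7 / ((κ : ℝ) + 1)))) =
      n₁ * β + 8 / 7 * n₁ * β * (a + 8 / 7 / ((κ : ℝ) + 1)) := by ring
    rw [this]; linarith
  exact le_of_mul_le_mul_left h12 hn1

end CLN_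

open CLN_ in
open scoped Classical in
theorem cln_proof : Stmt_CLN := by
  intro X Y g A B κ t hA hB hg hκ ht
  have hG0 : ∀ P ⊆ A, ∀ Q ⊆ B, 0 < av P Q g + t := by
    intro P hP Q hQ
    have := av_nonneg (A := P) (B := Q) (g := g) fun x hx y hy => hg x (hP hx) y (hQ hy)
    linarith
  set S := (A.powerset ×ˢ B.powerset).filter fun z => z.1.Nonempty ∧ z.2.Nonempty with hS
  obtain ⟨⟨A0, B0⟩, hz, hmax⟩ := Finset.exists_max_image S
    (fun z => ((z.1.card : ℝ) * z.2.card) / (av z.1 z.2 g + t) ^ κ) ⟨(A, B), by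
      rw [hS, Finset.mem_filter, Finset.mem_product, Finset.mem_powerset, Finset.mem_powerset]
      exact ⟨⟨Finset.Subset.refl _, Finset.Subset.refl _⟩, hA, hB⟩⟩
  rw [hS, Finset.mem_filter, Finset.mem_product, Finset.mem_powerset, Finset.mem_powerset] at hz
  obtain ⟨⟨hA0, hB0⟩, hA0n, hB0n⟩ := hz
  simp only at hA0 hB0 hA0n hB0n
  have hβ : 0 < av A0 B0 g + t := hG0 A0 hA0 B0 hB0
  have hM : ∀ P ⊆ A, ∀ Q ⊆ B, P.Nonempty → Q.Nonempty →
      ((P.card : ℝ) * Q.card) * (av A0 B0 g + t) ^ κ ≤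
        ((A0.card : ℝ) * B0.card) * (av P Q g + t) ^ κ := by
    intro P hP Q hQ hPn hQn
    have h1 := hmax (P, Q) (by
      rw [hS, Finset.mem_filter, Finset.mem_product, Finset.mem_powerset, Finset.mem_powerset]
      exact ⟨⟨hP, hQ⟩, hPn, hQn⟩)
    simp only at h1
    rwa [div_le_div_iff₀ (pow_pos (hG0 P hP Q hQ) κ) (pow_pos hβ κ)] at h1
  refine ⟨A0, hA0, B0, hB0, hA0n, hB0n, hM A (Finset.Subset.refl _) B (Finset.Subset.refl _) hA hB,
    ?_⟩
  intro A1 hA1 B1 hB1 hcA hcB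
  set β := av A0 B0 g + t with hβd
  have nA0 : (0 : ℝ) < A0.card := by exact_mod_cast hA0n.card_pos
  have nB0 : (0 : ℝ) < B0.card := by exact_mod_cast hB0n.card_pos
  have nA1 : (0 : ℝ) < A1.card := by linarith
  have nB1 : (0 : ℝ) < B1.card := by linarith
  have hA1n : A1.Nonempty := Finset.card_pos.1 (by exact_mod_cast nA1)
  have hk : (0 : ℝ) < (κ : ℝ) + 1 := by positivity
  have sumA : (A0.card : ℝ) = (A1.card : ℝ) + ((A0 \ A1).card : ℝ) := by
    have := Finset.card_sdiff_add_card_eq_card hA1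
    have h3 : ((A0 \ A1).card : ℝ) + (A1.card : ℝ) = (A0.card : ℝ) := by exact_mod_cast this
    linarith
  have sumB : (B0.card : ℝ) = (B1.card : ℝ) + ((B0 \ B1).card : ℝ) := by
    have := Finset.card_sdiff_add_card_eq_card hB1
    have h3 : ((B0 \ B1).card : ℝ) + (B1.card : ℝ) = (B0.card : ℝ) := by exact_mod_cast this
    linarith
  -- first step
  have s1 : av A1 B0 g + t ≤ β * (1 + 8 / 7 * (0 + 8 / 7 / ((κ : ℝ) + 1))) := by
    refine step (N := A0.card) (n₁ := A1.card) (m := (A0 \ A1).card) (G := β)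
      (G₂ := av (A0 \ A1) B0 g + t) (w := 1) nA0 (by positivity) hβ
      (hG0 _ (Finset.sdiff_subset.trans hA0) _ hB0).le sumA (by norm_num) hcA
      (rows g t hA1 hB0n) ?_ (by simp) le_rfl
    rcases (A0 \ A1).eq_empty_or_nonempty with h0 | h0
    · rw [h0]
      simp only [Finset.card_empty, Nat.cast_zero, zero_div, mul_zero]
      refine pow_nonneg (div_nonneg ?_ hβ.le) _
      rw [← h0]
      exact (hG0 _ (Finset.sdiff_subset.trans hA0) _ hB0).le
    · have h1 := hM _ (Finset.sdiff_subset.trans hA0 : A0 \ A1 ⊆ A) B0 hB0 h0 hB0n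
      rw [one_mul, div_pow, div_le_div_iff₀ nA0 (pow_pos hβ κ)]
      have h2 : (B0.card : ℝ) * (((A0 \ A1).card : ℝ) * β ^ κ) ≤
          (B0.card : ℝ) * ((av (A0 \ A1) B0 g + t) ^ κ * (A0.card : ℝ)) := by
        linarith
      exact le_of_mul_le_mul_left h2 nB0
  have s2 : av A1 B1 g + t ≤ β * (1 + 8 / 7 * (8 / 7 * (0 + 8 / 7 / ((κ : ℝ) + 1)) +
      8 / 7 / ((κ : ℝ) + 1))) := by
    refine step (N := B0.card) (n₁ := B1.card) (m := (B0 \ B1).card) (G := av A1 B0 g + t)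
      (G₂ := av A1 (B0 \ B1) g + t) (w := (A1.card : ℝ) / A0.card) nB0 (by positivity) hβ
      (hG0 _ (hA1.trans hA0) _ (Finset.sdiff_subset.trans hB0)).le sumB ?_ hcB
      (cols g t hB1 hA1n) ?_ s1 (by positivity)
    · rw [le_div_iff₀ nA0]; linarith
    · rcases (B0 \ B1).eq_empty_or_nonempty with h0 | h0
      · rw [h0]
        simp only [Finset.card_empty, Nat.cast_zero, zero_div, mul_zero]
        refine pow_nonneg (div_nonneg ?_ hβ.le) _
        rw [← h0]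
        exact (hG0 _ (hA1.trans hA0) _ (Finset.sdiff_subset.trans hB0)).le
      · have h1 := hM A1 (hA1.trans hA0) _ (Finset.sdiff_subset.trans hB0 : B0 \ B1 ⊆ B)
          hA1n h0
        rw [div_mul_div_comm, div_pow, div_le_div_iff₀ (mul_pos nA0 nB0) (pow_pos hβ κ)]
        linarith
  refine s2.trans ?_
  rw [mul_comm β]
  refine mul_le_mul_of_nonneg_right ?_ hβ.le
  have h1 : (0 : ℝ) ≤ 1 / ((κ : ℝ) + 1) := by positivity
  have h2 : 8 / 7 / ((κ : ℝ) + 1) = 8 / 7 * (1 / ((κ : ℝ) + 1)) := by ring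
  have h3 : 5 / ((κ : ℝ) + 1) = 5 * (1 / ((κ : ℝ) + 1)) := by ring
  rw [h2, h3]
  nlinarith

end Pool.Agent.LSB
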