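import Pool.Agent.LIS.Rot0

/-!
MP_132c09_co, Theorem B: exactly lambda-intersecting subfamilies, small error density.
Definitions. `S2` (sum over a rectangle) and `av` (average over a rectangle) and their basic lemmas
are in `Pool.Agent.LIS.Rot0`.
-/

namespace Pool.Agent.LSB

open Finset Pool.Agent.LIS

variable {X Y : Type} {n : ℕ}

/-- deviation of the size of the intersection from `lam` -/
def dv (a : X → Finset (Fin n)) (b : Y → Finset (Fin n)) (lam : ℕ) (x : X) (y : Y) : ℝ :=
  ((a x ∩ b y).card : ℝ) - lam

/-- indicator of a good pair -/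
noncomputable def gd (a : X → Finset (Fin n)) (b : Y → Finset (Fin n)) (lam : ℕ)
    (x : X) (y : Y) : ℝ :=
  if (a x ∩ b y).card = lam then 1 else 0

/-- exponential weight of the bad pairs -/
noncomputable def er (a : X → Finset (Fin n)) (b : Y → Finset (Fin n)) (lam : ℕ) (ρ : ℝ)
    (x : X) (y : Y) : ℝ :=
  if (a x ∩ b y).card = lam then 0 else Real.exp (ρ * dv a b lam x y)

/-- binomial weight of the pairs whose intersection has more than `lam` elements -/
noncomputable def bw (a : X → Finset (Fin n)) (b : Y → Finset (Fin n)) (lam : ℕ)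
    (x : X) (y : Y) : ℝ :=
  if lam < (a x ∩ b y).card then (((a x ∩ b y).card.choose lam : ℕ) : ℝ) else 0

end Pool.Agent.LSB
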