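import Pool.Agent.LSB.Stmts
import Pool.Agent.BddInt.Fact

/-!
# LSB, module FAC: factorisation of the deviation matrix and Markov
-/

namespace Pool.Agent.LSB

open Finset Pool.Agent.LIS

namespace FAC_

lemma rank_le {X Y : Type} {n : ℕ} (a : X → Finset (Fin n)) (b : Y → Finset (Fin n)) (lam : ℕ)
    (A : Finset X) (B : Finset Y) :
    (Matrix.of fun (x : A) (y : B) => -dv a b lam x.1 y.1).rank ≤ n + 1 := by
  classical
  let P : Matrix A (Option (Fin n)) ℝ := Matrix.of fun x o =>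
    match o with
    | none => 1
    | some e => if e ∈ a x.1 then -1 else 0
  let Q : Matrix (Option (Fin n)) B ℝ := Matrix.of fun o y =>
    match o with
    | none => (lam : ℝ)
    | some e => if e ∈ b y.1 then 1 else 0
  have hPQ : (Matrix.of fun (x : A) (y : B) => -dv a b lam x.1 y.1) = P * Q := by
    ext x y
    rw [Matrix.mul_apply, Fintype.sum_option]
    simp only [P, Q, Matrix.of_apply, dv]
    have h1 : ∀ e : Fin n, (if e ∈ a x.1 then (-1 : ℝ) else 0) * (if e ∈ b y.1 then 1 else 0)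
        = -(if e ∈ a x.1 ∩ b y.1 then (1 : ℝ) else 0) := by
      intro e
      by_cases h1 : e ∈ a x.1 <;> by_cases h2 : e ∈ b y.1 <;> simp [h1, h2]
    have h2 : ∑ e : Fin n, (if e ∈ a x.1 then (-1 : ℝ) else 0) * (if e ∈ b y.1 then 1 else 0)
        = -((a x.1 ∩ b y.1).card : ℝ) := by
      rw [Finset.sum_congr rfl fun e _ => h1 e, Finset.sum_neg_distrib, Finset.sum_boole]
      have h3 : (Finset.univ.filter fun e : Fin n => e ∈ a x.1 ∩ b y.1) = a x.1 ∩ b y.1 := by
        ext e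
        simp
      rw [h3]
    rw [h2]
    ring
  rw [hPQ]
  refine (Matrix.rank_mul_le_left P Q).trans ((Matrix.rank_le_card_width P).trans ?_)
  simp

lemma markov {X : Type} (A : Finset X) (f : X → ℝ) (D : ℝ) (hD : 0 < D) (hf : ∀ x ∈ A, 0 ≤ f x)
    (h : ∑ x ∈ A, f x ≤ D * A.card) :
    7 * (A.card : ℝ) ≤ 8 * ((A.filter fun x => f x ≤ 8 * D).card : ℝ) := by
  classical
  have h1 : ((A.filter fun x => f x ≤ 8 * D).card : ℝ)
      + ((A.filter fun x => ¬ f x ≤ 8 * D).card : ℝ) = A.card := by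
    exact_mod_cast Finset.card_filter_add_card_filter_not (s := A) (fun x => f x ≤ 8 * D)
  have h2 : ((A.filter fun x => ¬ f x ≤ 8 * D).card : ℝ) * (8 * D) ≤ ∑ x ∈ A, f x := by
    calc ((A.filter fun x => ¬ f x ≤ 8 * D).card : ℝ) * (8 * D)
        = ∑ x ∈ A.filter (fun x => ¬ f x ≤ 8 * D), (8 * D) := by
          rw [Finset.sum_const, nsmul_eq_mul]
      _ ≤ ∑ x ∈ A.filter (fun x => ¬ f x ≤ 8 * D), f x := by
          refine Finset.sum_le_sum fun x hx => ?_
          exact (not_le.1 (Finset.mem_filter.1 hx).2).le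
      _ ≤ ∑ x ∈ A, f x :=
          Finset.sum_le_sum_of_subset_of_nonneg (Finset.filter_subset _ _) fun x hx _ => hf x hx
  have h3 : ((A.filter fun x => ¬ f x ≤ 8 * D).card : ℝ) * 8 ≤ A.card := by
    have h4 := h2.trans h
    have h5 : (((A.filter fun x => ¬ f x ≤ 8 * D).card : ℝ) * 8) * D ≤ (A.card : ℝ) * D := by
      linarith
    exact le_of_mul_le_mul_right h5 hD
  linarith

end FAC_

open FAC_ in
theorem fac_proof : Stmt_FAC := by
  classical
  intro X Y n lam a b A B D hA hB hD hle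
  have : Nonempty A := hA.to_subtype
  have : Nonempty B := hB.to_subtype
  obtain ⟨ι, hι, u, v, h1, h2, h3⟩ := Pool.Agent.BddInt.Fact_proof A B
    (fun (x : A) (y : B) => -dv a b lam x.1 y.1) (n + 1) (rank_le a b lam A B)
  have hsq : (∑ x : A, ∑ y : B, (-dv a b lam x.1 y.1) ^ 2)
      = S2 A B (fun x y => dv a b lam x y ^ 2) := by
    unfold S2
    rw [← Finset.sum_coe_sort A]
    refine Finset.sum_congr rfl fun x _ => ?_
    rw [← Finset.sum_coe_sort B]
    refine Finset.sum_congr rfl fun y _ => ?_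
    ring
  rw [hsq, Fintype.card_coe, Fintype.card_coe] at h2 h3
  have hroot : √(((n + 1 : ℕ) : ℝ) * (S2 A B (fun x y => dv a b lam x y ^ 2)
      / ((A.card : ℝ) * (B.card : ℝ)))) ≤ D := by
    push_cast
    exact hle
  let u' : X → ι → ℝ := fun x i => if h : x ∈ A then u ⟨x, h⟩ i else 0
  let v' : Y → ι → ℝ := fun y i => if h : y ∈ B then v ⟨y, h⟩ i else 0
  have hu' : ∀ x : A, u' x.1 = u x := by
    intro x
    funext i
    simp only [u', dif_pos x.2]
  have hv' : ∀ y : B, v' y.1 = v y := by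
    intro y
    funext i
    simp only [v', dif_pos y.2]
  refine ⟨ι, hι, u', v', A.filter (fun x => ∑ i, u' x i ^ 2 ≤ 8 * D), Finset.filter_subset _ _,
    B.filter (fun y => ∑ i, v' y i ^ 2 ≤ 8 * D), Finset.filter_subset _ _, ?_, ?_, ?_, ?_, ?_⟩
  · refine markov A (fun x => ∑ i, u' x i ^ 2) D hD
      (fun x _ => Finset.sum_nonneg fun i _ => sq_nonneg _) ?_
    rw [← Finset.sum_coe_sort A]
    calc ∑ x : A, ∑ i, u' x.1 i ^ 2 = ∑ x : A, ∑ i, u x i ^ 2 := by
          refine Finset.sum_congr rfl fun x _ => ?_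
          rw [hu' x]
      _ ≤ _ := h2
      _ ≤ D * A.card := mul_le_mul_of_nonneg_right hroot (Nat.cast_nonneg _)
  · refine markov B (fun y => ∑ i, v' y i ^ 2) D hD
      (fun y _ => Finset.sum_nonneg fun i _ => sq_nonneg _) ?_
    rw [← Finset.sum_coe_sort B]
    calc ∑ y : B, ∑ i, v' y.1 i ^ 2 = ∑ y : B, ∑ i, v y i ^ 2 := by
          refine Finset.sum_congr rfl fun y _ => ?_
          rw [hv' y]
      _ ≤ _ := h3
      _ ≤ D * B.card := mul_le_mul_of_nonneg_right hroot (Nat.cast_nonneg _)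
  · intro x hx
    exact (Finset.mem_filter.1 hx).2
  · intro y hy
    exact (Finset.mem_filter.1 hy).2
  · intro x hx y hy
    have h4 := h1 ⟨x, hx⟩ ⟨y, hy⟩
    rw [← h4]
    refine Finset.sum_congr rfl fun i _ => ?_
    rw [← hu' ⟨x, hx⟩, ← hv' ⟨y, hy⟩]

end Pool.Agent.LSB
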