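import Pool.Agent.LSB.Main

/-!
MP_132c09_co, Theorem B: the remaining ranges and the final statement.
-/

namespace Pool.Agent.LSB

open Finset Pool.Agent.LIS

variable {n : ℕ}

/-- the full theorem with natural exponentials -/
theorem theoremB (hITR : Stmt_ITR) (hLST : Stmt_LST) (hCHO : Stmt_CHO) (hWIN : Stmt_WIN)
    (hTRI : Stmt_TRI) (hRKF : Stmt_RKF) (lam : ℕ) (hl : 1 ≤ lam)
    (hn : 1 ≤ n) (A₀ B₀ : Finset (Finset (Fin n))) (hA₀ : A₀.Nonempty) (hB₀ : B₀.Nonempty)
    (ε : ℝ) (hε : 0 < ε) (hε2 : ε ≤ 1 / 2)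
    (hcnt : (1 - ε) * ((A₀.card : ℝ) * B₀.card) ≤
      Zc (fun S T : Finset (Fin n) => (S ∩ T).card = lam) A₀ B₀) :
    ∃ A' ⊆ A₀, ∃ B' ⊆ B₀, (∀ S ∈ A', ∀ T ∈ B', (S ∩ T).card = lam) ∧
      Real.exp (-(200000 * (√(n * ε) * (Real.log (4 / ε) + lam * Real.log (lam + 1))))) *
        ((A₀.card : ℝ) * B₀.card) ≤ (A'.card : ℝ) * B'.card := by
  classical
  have hα : (0 : ℝ) < A₀.card := by exact_mod_cast hA₀.card_pos
  have hβ : (0 : ℝ) < B₀.card := by exact_mod_cast hB₀.card_pos
  have hM : (0 : ℝ) < (A₀.card : ℝ) * B₀.card := mul_pos hα hβ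
  have hn' : (1 : ℝ) ≤ n := by exact_mod_cast hn
  have hl' : (1 : ℝ) ≤ lam := by exact_mod_cast hl
  have hgd : (1 - ε) * ((A₀.card : ℝ) * B₀.card) ≤
      S2 A₀ B₀ (gd (fun S : Finset (Fin n) => S) (fun T : Finset (Fin n) => T) lam) := by
    refine hcnt.trans (le_of_eq ?_)
    unfold Zc S2 gd
    apply Finset.sum_congr rfl
    intro S _
    apply Finset.sum_congr rfl
    intro T _
    beta_reduce
    split_ifs <;> rfl
  set q : ℝ := √(n * ε) with hqdef
  have hqq : q * q = n * ε := Real.mul_self_sqrt (by positivity)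
  have hq0 : 0 < q := Real.sqrt_pos.mpr (by positivity)
  set Λ : ℝ := Real.log (4 / ε) with hΛ
  have hΛ2 : 2 ≤ Λ := by
    have h1 : (8 : ℝ) ≤ 4 / ε := by
      rw [le_div_iff₀ hε]; linarith
    have h2 : Real.exp 2 ≤ 8 := by
      have h3 : Real.exp 2 = Real.exp 1 * Real.exp 1 := by rw [← Real.exp_add]; norm_num
      rw [h3]
      have := Real.exp_one_lt_d9
      have := Real.exp_pos 1
      nlinarith
    have := Real.log_le_log (Real.exp_pos _) (h2.trans h1)
    rwa [Real.log_exp] at this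
  set L : ℝ := Real.log (lam + 1) with hL
  have hL0 : 0.69 ≤ L := by
    have h3 : Real.log 2 ≤ Real.log (lam + 1) := Real.log_le_log (by norm_num) (by linarith)
    linarith [Real.log_two_gt_d9]
  have hlL : 0.69 * lam ≤ lam * L := by nlinarith
  have hqlL0 : 0 ≤ q * (lam * L) := by positivity
  have hqΛ : 2 * q ≤ q * Λ := by nlinarith
  have hsplit : q * (Λ + lam * L) = q * Λ + q * (lam * L) := by ring
  rw [hsplit]
  rcases le_or_gt (ε * ((n : ℝ) + 1)) (1 / 4) with ha | ha
  · -- very few bad pairs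
    obtain ⟨A', hA', B', hB', hint, hbig⟩ := hRKF _ _ n lam (fun S : Finset (Fin n) => S)
      (fun T : Finset (Fin n) => T) A₀ B₀ ε hε.le ha hgd
    refine ⟨A', hA', B', hB', hint, le_trans ?_ hbig⟩
    apply mul_le_mul_of_nonneg_right _ hM.le
    apply Real.exp_le_exp.mpr
    have h1 : √(ε * ((n : ℝ) + 1)) ≤ 1.5 * q := by
      rw [Real.sqrt_le_left (by positivity)]
      have e : (1.5 * q) ^ 2 = 1.5 ^ 2 * (n * ε) := by
        have : (1.5 * q) ^ 2 = 1.5 ^ 2 * (q * q) := by ring
        rw [this, hqq]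
      rw [e]
      nlinarith
    linarith
  rcases le_or_gt q Λ with hb | hb
  · -- the window
    have hz : Real.exp (-(2 * ε)) ≤ 1 - ε := by
      have h1 := Real.quadratic_le_exp_of_nonneg (x := 2 * ε) (by linarith)
      rw [Real.exp_neg, inv_le_comm₀ (Real.exp_pos _) (by linarith)]
      refine le_trans ?_ h1
      rw [inv_eq_one_div, div_le_iff₀ (by linarith)]
      nlinarith
    obtain ⟨A', hA', B', hB', hint, hbig⟩ := hWIN _ _
      (fun S T : Finset (Fin n) => (S ∩ T).card = lam) A₀ B₀ (n + 1) (1 - ε) hA₀ hB₀ (by omega)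
      (by linarith) (by linarith) (by
        refine hgd.trans (le_of_eq ?_)
        unfold S2 gd
        apply Finset.sum_congr rfl
        intro S _
        apply Finset.sum_congr rfl
        intro T _
        beta_reduce
        split_ifs <;> rfl) (by
        intro m x y _ _ hbad htri
        exact hTRI n lam m x y hbad htri)
    refine ⟨A', hA', B', hB', hint, le_trans ?_ hbig⟩
    apply mul_le_mul_of_nonneg_right _ hM.le
    have h1 : Real.exp (-(2 * ε)) ^ (2 * (n + 1)) ≤ (1 - ε) ^ (2 * (n + 1)) :=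
      pow_le_pow_left₀ (Real.exp_pos _).le hz _
    have h2 : Real.exp (-(2 * ε)) ^ (2 * (n + 1)) = Real.exp (-(4 * (ε * ((n : ℝ) + 1)))) := by
      rw [← Real.exp_nat_mul]
      congr 1
      push_cast
      ring
    rw [h2] at h1
    have h3 : Real.exp (-1) ≤ 1 / 2 := by
      rw [Real.exp_neg, inv_le_comm₀ (Real.exp_pos _) (by norm_num)]
      linarith [Real.exp_one_gt_d9]
    calc Real.exp (-(200000 * (q * Λ + q * (lam * L))))
        ≤ Real.exp (-1) * Real.exp (-(4 * (ε * ((n : ℝ) + 1)))) := by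
          rw [← Real.exp_add]
          apply Real.exp_le_exp.mpr
          have h4 : ε * ((n : ℝ) + 1) ≤ 2 * (q * q) := by
            rw [hqq]; nlinarith
          have h5 : q * q ≤ q * Λ := mul_le_mul_of_nonneg_left hb hq0.le
          linarith
      _ ≤ 1 / 2 * (1 - ε) ^ (2 * (n + 1)) := mul_le_mul h3 h1 (by positivity) (by norm_num)
  rcases le_or_gt (1 / 5308416) (ε * lam) with hc | hc
  · -- large error density
    have hz0 : (0 : ℝ) < 1 - ε := by linarith
    obtain ⟨A', hA', B', hB', I, hI, hint, hbig⟩ := opt n lam lam hn (le_refl _) hl (1 - ε) hz0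
      (by linarith) A₀ B₀ hA₀ hB₀ hcnt
    refine ⟨A', hA', B', hB', fun S hS T hT => by rw [hint S hS T hT, hI], le_trans ?_ hbig⟩
    apply mul_le_mul_of_nonneg_right _ hM.le
    apply Real.exp_le_exp.mpr
    have h1 : Real.log (1 / (1 - ε)) ≤ 1 := by
      have h2 : 1 / (1 - ε) ≤ 2 := by
        rw [div_le_iff₀ hz0]
        linarith
      have h3 := Real.log_le_log (by positivity) h2
      linarith [Real.log_two_lt_d9]
    have h2 : √((n : ℝ) * (lam + Real.log (1 / (1 - ε)))) ≤ 3300 * (q * lam) := by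
      rw [Real.sqrt_le_left (by positivity)]
      have e : (3300 * (q * lam)) ^ 2 = 3300 ^ 2 * (n * ε) * (lam * lam) := by
        have : (3300 * (q * lam)) ^ 2 = 3300 ^ 2 * (q * q) * (lam * lam) := by ring
        rw [this, hqq]
      rw [e]
      have h4 : (n : ℝ) * (lam + Real.log (1 / (1 - ε))) ≤ n * (2 * lam) := by
        apply mul_le_mul_of_nonneg_left _ (by linarith)
        linarith
      have h5 : 3300 ^ 2 * (n * ε) * (lam * lam) = n * lam * (3300 ^ 2 * (ε * lam)) := by ring
      have h6 : (n : ℝ) * lam * 2 ≤ n * lam * (3300 ^ 2 * (ε * lam)) := by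
        apply mul_le_mul_of_nonneg_left _ (by positivity)
        linarith
      linarith
    have h3 : q * lam ≤ q * (1.45 * (lam * L)) := by
      apply mul_le_mul_of_nonneg_left _ hq0.le
      linarith
    have h4 : 0 ≤ q * Λ := by linarith
    linarith
  · -- the main case
    obtain ⟨A', hA', B', hB', hint, hbig⟩ := case_d hITR hLST hCHO lam hl hn A₀ B₀ hA₀ hB₀ ε hε hc
      hb (by
        have h1 : S2 A₀ B₀ (fun S T : Finset (Fin n) => if (S ∩ T).card = lam then (0 : ℝ) else 1) =
            (A₀.card : ℝ) * B₀.card - Zc (fun S T : Finset (Fin n) => (S ∩ T).card = lam) A₀ B₀ := by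
          have h2 : (A₀.card : ℝ) * B₀.card = ∑ S ∈ A₀, ∑ T ∈ B₀, (1 : ℝ) := by simp
          rw [h2]
          unfold S2 Zc
          rw [← Finset.sum_sub_distrib]
          apply Finset.sum_congr rfl
          intro S _
          rw [← Finset.sum_sub_distrib]
          apply Finset.sum_congr rfl
          intro T _
          beta_reduce
          split_ifs <;> norm_num
        rw [h1]
        linarith)
    refine ⟨A', hA', B', hB', hint, le_trans ?_ hbig⟩
    apply mul_le_mul_of_nonneg_right _ hM.le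
    apply Real.exp_le_exp.mpr
    rw [← hqdef, ← hΛ, ← hL, hsplit]
    have h4 : 0 ≤ q * Λ := by linarith
    linarith

end Pool.Agent.LSB
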