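import Pool.Agent.LSB.Stmts

namespace Pool.Agent.LSB

open Finset Pool.Agent.LIS

namespace ITR_

lemma pow_bound (K : ℕ) (hK : 1 ≤ K) (j : ℕ) (hj : j ≤ K) : (1 + 2 / (K : ℝ)) ^ j ≤ 8 := by
  have hK' : (0 : ℝ) < K := by exact_mod_cast hK
  have h1 : (1 + 2 / (K : ℝ)) ^ j ≤ (1 + 2 / (K : ℝ)) ^ K :=
    pow_le_pow_right₀ (by have : 0 ≤ 2 / (K : ℝ) := by positivity
                          linarith) hj
  have h2 : (1 + 2 / (K : ℝ)) ≤ Real.exp (2 / K) := by
    have := Real.add_one_le_exp (2 / (K : ℝ))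
    linarith
  have h3 : (1 + 2 / (K : ℝ)) ^ K ≤ Real.exp (2 / K) ^ K :=
    pow_le_pow_left₀ (by positivity) h2 K
  have h4 : Real.exp (2 / K) ^ K = Real.exp 1 * Real.exp 1 := by
    rw [← Real.exp_nat_mul, ← Real.exp_add]
    congr 1
    field_simp
    norm_num
  have h5 := Real.exp_one_lt_d9
  have h6 := Real.exp_pos 1
  nlinarith

end ITR_

theorem itr_proof (hSTG : Stmt_STG) : Stmt_ITR := by
  intro X Y n lam a b A B ρ t β K J hn hK hJK hρ hscale ht hA hB hav hKβ
  have hK' : (1 : ℝ) ≤ K := by exact_mod_cast hK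
  have hn' : (0 : ℝ) < n := by exact_mod_cast hn
  have hnn : ∀ (A' : Finset X) (B' : Finset Y) (r : ℝ), 0 ≤ av A' B' (er a b lam r) := by
    intro A' B' r
    apply av_nonneg
    intro x _ y _
    unfold er
    split_ifs
    · exact le_refl _
    · exact (Real.exp_pos _).le
  have hβ : 0 < β := lt_of_lt_of_le (by have := hnn A B ρ; linarith) hav
  set c : ℝ := Real.exp (-(23 + 120 * √(n * β))) / (K : ℝ) ^ 3 with hc
  have hc0 : 0 < c := by positivity
  have key : ∀ j : ℕ, j ≤ J → ∃ A' ⊆ A, ∃ B' ⊆ B, A'.Nonempty ∧ B'.Nonempty ∧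
      av A' B' (er a b lam (2 ^ j * ρ)) + t ≤ (1 + 2 / (K : ℝ)) ^ j * β ∧
      c ^ j * ((A.card : ℝ) * B.card) * (av A' B' (er a b lam (2 ^ j * ρ)) + t) ^ (5 * K) ≤
        ((A'.card : ℝ) * B'.card) * β ^ (5 * K) := by
    intro j
    induction j with
    | zero =>
      intro _
      refine ⟨A, subset_rfl, B, subset_rfl, hA, hB, by simpa using hav, ?_⟩
      simp only [pow_zero, one_mul]
      apply mul_le_mul_of_nonneg_left _ (by positivity)
      apply pow_le_pow_left₀ _ hav
      have := hnn A B ρ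
      linarith
    | succ j ih =>
      intro hj
      obtain ⟨A₁, hA₁, B₁, hB₁, hA1, hB1, h1, h2⟩ := ih (by omega)
      set bj : ℝ := av A₁ B₁ (er a b lam (2 ^ j * ρ)) + t with hbj
      have hbj0 : 0 < bj := by have := hnn A₁ B₁ (2 ^ j * ρ); linarith
      have hpb := ITR_.pow_bound K hK j (by omega)
      have hbj8 : bj ≤ 8 * β := h1.trans (mul_le_mul_of_nonneg_right hpb hβ.le)
      obtain ⟨A₂, hA₂, B₂, hB₂, hA2, hB2, h3, h4⟩ := hSTG X Y n lam a b A₁ B₁ (2 ^ j * ρ) t K hn hK
        (by positivity) (by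
          have h5 : (2 : ℝ) ^ j ≤ 2 ^ J := pow_le_pow_right₀ (by norm_num) (by omega)
          have h6 : (2 : ℝ) ^ j * ρ * lam ≤ 2 ^ J * ρ * lam := by
            apply mul_le_mul_of_nonneg_right _ (Nat.cast_nonneg _)
            exact mul_le_mul_of_nonneg_right h5 hρ.le
          linarith) ht hA1 hB1 (by
          have h5 : 100 * (K : ℝ) * bj ≤ 100 * K * (8 * β) :=
            mul_le_mul_of_nonneg_left hbj8 (by positivity)
          linarith)
      have e1 : 2 * (2 ^ j * ρ) = 2 ^ (j + 1) * ρ := by rw [pow_succ]; ring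
      rw [e1] at h3 h4
      refine ⟨A₂, hA₂.trans hA₁, B₂, hB₂.trans hB₁, hA2, hB2, ?_, ?_⟩
      · refine h3.trans ?_
        rw [pow_succ]
        have h5 : 0 ≤ 1 + 2 / (K : ℝ) := by positivity
        calc (1 + 2 / (K : ℝ)) * bj ≤ (1 + 2 / (K : ℝ)) * ((1 + 2 / (K : ℝ)) ^ j * β) :=
              mul_le_mul_of_nonneg_left h1 h5
          _ = _ := by ring
      · set bj1 : ℝ := av A₂ B₂ (er a b lam (2 ^ (j + 1) * ρ)) + t with hbj1
        have hbj10 : 0 < bj1 := by have := hnn A₂ B₂ (2 ^ (j + 1) * ρ); linarith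
        have hsq : √(n * bj) ≤ 3 * √(n * β) := by
          rw [Real.sqrt_le_left (by positivity), mul_pow, Real.sq_sqrt (by positivity)]
          have : (n : ℝ) * bj ≤ n * (8 * β) := mul_le_mul_of_nonneg_left hbj8 hn'.le
          have h7 : 0 ≤ (n : ℝ) * β := by positivity
          linarith
        have hcle : c ≤ Real.exp (-(23 + 40 * √(n * bj))) / (K : ℝ) ^ 3 := by
          rw [hc]
          apply div_le_div_of_nonneg_right _ (by positivity)
          apply Real.exp_le_exp.mpr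
          linarith
        have h5 : c * ((A₁.card : ℝ) * B₁.card) * bj1 ^ (5 * K) ≤
            ((A₂.card : ℝ) * B₂.card) * bj ^ (5 * K) := by
          refine le_trans ?_ h4
          apply mul_le_mul_of_nonneg_right _ (by positivity)
          exact mul_le_mul_of_nonneg_right hcle (by positivity)
        have hbk : 0 < bj ^ (5 * K) := by positivity
        apply le_of_mul_le_mul_right _ hbk
        calc c ^ (j + 1) * ((A.card : ℝ) * B.card) * bj1 ^ (5 * K) * bj ^ (5 * K)
            = (c * bj1 ^ (5 * K)) * (c ^ j * ((A.card : ℝ) * B.card) * bj ^ (5 * K)) := by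
              rw [pow_succ]; ring
          _ ≤ (c * bj1 ^ (5 * K)) * (((A₁.card : ℝ) * B₁.card) * β ^ (5 * K)) :=
              mul_le_mul_of_nonneg_left h2 (by positivity)
          _ = (c * ((A₁.card : ℝ) * B₁.card) * bj1 ^ (5 * K)) * β ^ (5 * K) := by ring
          _ ≤ (((A₂.card : ℝ) * B₂.card) * bj ^ (5 * K)) * β ^ (5 * K) :=
              mul_le_mul_of_nonneg_right h5 (by positivity)
          _ = _ := by ring
  obtain ⟨A', hA', B', hB', h1, h2, h3, h4⟩ := key J (le_refl _)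
  refine ⟨A', hA', B', hB', h1, h2, ?_, ?_⟩
  · have hpb := ITR_.pow_bound K hK J hJK
    have := mul_le_mul_of_nonneg_right hpb hβ.le
    linarith
  · have h5 := hnn A' B' (2 ^ J * ρ)
    have h6 : t ^ (5 * K) ≤ (av A' B' (er a b lam (2 ^ J * ρ)) + t) ^ (5 * K) :=
      pow_le_pow_left₀ ht.le (by linarith) _
    rw [div_pow]
    have hβk : 0 < β ^ (5 * K) := by positivity
    have e : t ^ (5 * K) / β ^ (5 * K) * c ^ J * ((A.card : ℝ) * B.card) =
        (c ^ J * ((A.card : ℝ) * B.card) * t ^ (5 * K)) / β ^ (5 * K) := by ring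
    rw [e, div_le_iff₀ hβk]
    refine le_trans ?_ h4
    exact mul_le_mul_of_nonneg_left h6 (by positivity)

end Pool.Agent.LSB
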