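import Pool.Agent.LSB.Stmts

/-!
Module LST: the last tilt.
-/

namespace Pool.Agent.LSB

open Finset Pool.Agent.LIS

namespace LST_

lemma choose_bound (lam k : ℕ) : (lam + k).choose k ≤ (lam + 1) ^ k := by
  induction k with
  | zero => simp
  | succ k ih =>
    have h := Nat.add_one_mul_choose_eq (lam + k) k
    -- (lam + k + 1) * choose (lam + k) k = choose (lam + k + 1) (k + 1) * (k + 1)
    have h1 : (lam + (k + 1)).choose (k + 1) * (k + 1) ≤ (lam + 1) ^ (k + 1) * (k + 1) := by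
      calc (lam + (k + 1)).choose (k + 1) * (k + 1) = (lam + k + 1) * (lam + k).choose k := by
            exact h.symm
        _ ≤ ((lam + 1) * (k + 1)) * (lam + 1) ^ k := by
            apply Nat.mul_le_mul _ ih
            nlinarith [Nat.zero_le (lam * k)]
        _ = (lam + 1) ^ (k + 1) * (k + 1) := by ring
    exact Nat.le_of_mul_le_mul_right h1 (Nat.succ_pos k)

lemma bw_bound (lam k : ℕ) :
    (((lam + k).choose lam : ℕ) : ℝ) * Real.exp (Real.log ((lam : ℝ) + 1) * (-(k : ℝ))) ≤ 1 := by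
  have hpos : (0 : ℝ) < (lam : ℝ) + 1 := by positivity
  have h1 : Real.exp (Real.log ((lam : ℝ) + 1) * (-(k : ℝ))) = (((lam : ℝ) + 1) ^ k)⁻¹ := by
    rw [mul_neg, Real.exp_neg, mul_comm, Real.exp_nat_mul, Real.exp_log hpos]
  rw [h1, Nat.choose_symm_add]
  have h2 : (((lam + k).choose k : ℕ) : ℝ) ≤ ((lam : ℝ) + 1) ^ k := by
    have := choose_bound lam k
    exact_mod_cast this
  rw [← div_eq_mul_inv]
  exact div_le_one_of_le₀ h2 (by positivity)

lemma point {X Y : Type} {n : ℕ} (lam : ℕ) (a : X → Finset (Fin n)) (b : Y → Finset (Fin n))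
    (τ : ℝ) (hτ : 0 ≤ τ) (x : X) (y : Y) :
    τ * gd a b lam x y ≤
      max (τ * gd a b lam x y - bw a b lam x y) 0 *
        Real.exp (Real.log ((lam : ℝ) + 1) * (-dv a b lam x y)) ∧
    max (-(τ * gd a b lam x y - bw a b lam x y)) 0 *
        Real.exp (Real.log ((lam : ℝ) + 1) * (-dv a b lam x y)) ≤ 1 - gd a b lam x y := by
  rcases lt_trichotomy (a x ∩ b y).card lam with h | h | h
  · have h1 : gd a b lam x y = 0 := by simp [gd, h.ne]
    have h2 : bw a b lam x y = 0 := by simp [bw, not_lt.2 h.le]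
    rw [h1, h2]
    simp
  · have h1 : gd a b lam x y = 1 := by simp [gd, h]
    have h2 : bw a b lam x y = 0 := by simp [bw, h]
    have h3 : dv a b lam x y = 0 := by simp [dv, h]
    rw [h1, h2, h3]
    simp [hτ]
  · have h1 : gd a b lam x y = 0 := by simp [gd, h.ne']
    obtain ⟨k, hk⟩ := Nat.exists_eq_add_of_lt h
    have hk' : (a x ∩ b y).card = lam + (k + 1) := by omega
    have h2 : bw a b lam x y = (((lam + (k + 1)).choose lam : ℕ) : ℝ) := by
      unfold bw
      rw [if_pos h, hk']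
    have h3 : dv a b lam x y = ((k + 1 : ℕ) : ℝ) := by
      simp only [dv, hk']
      push_cast
      ring
    rw [h1, h2, h3]
    have h4 := bw_bound lam (k + 1)
    have h5 : (0 : ℝ) ≤ (((lam + (k + 1)).choose lam : ℕ) : ℝ) := by positivity
    constructor
    · have h6 : (0 : ℝ) ≤ max (τ * 0 - (((lam + (k + 1)).choose lam : ℕ) : ℝ)) 0 *
          Real.exp (Real.log ((lam : ℝ) + 1) * (-((k + 1 : ℕ) : ℝ))) :=
        mul_nonneg (le_max_right _ _) (Real.exp_pos _).le
      simpa using h6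
    · have h7 : max (-(τ * 0 - (((lam + (k + 1)).choose lam : ℕ) : ℝ))) 0 =
          (((lam + (k + 1)).choose lam : ℕ) : ℝ) := by
        rw [mul_zero, zero_sub, neg_neg, max_eq_left h5]
      rw [h7, sub_zero]
      exact h4

end LST_

open LST_ in
theorem lst_proof (h1 : Stmt_TLD) (h2 : Stmt_FAC) (h3 : Stmt_SQE) : Stmt_LST := by
  intro X Y n lam a b A B ρ β hn hlam hρl hρl2 hA hB hβ hβ2 hav
  have hlam' : (1 : ℝ) ≤ lam := by exact_mod_cast hlam
  have hn' : (1 : ℝ) ≤ n := by exact_mod_cast hn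
  have hρ : 0 < ρ := by
    by_contra hneg
    have := mul_nonpos_of_nonpos_of_nonneg (not_lt.1 hneg) (by linarith : (0 : ℝ) ≤ lam)
    linarith
  have hMA : (0 : ℝ) < A.card := by exact_mod_cast hA.card_pos
  have hMB : (0 : ℝ) < B.card := by exact_mod_cast hB.card_pos
  have hM : (0 : ℝ) < (A.card : ℝ) * B.card := mul_pos hMA hMB
  have her0 : ∀ x y, 0 ≤ er a b lam ρ x y := by
    intro x y
    unfold er
    split_ifs
    · exact le_refl _
    · exact (Real.exp_pos _).le
  have hS : S2 A B (er a b lam ρ) ≤ β * ((A.card : ℝ) * B.card) := by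
    rw [← card_mul_av]
    nlinarith
  -- the mean square of the deviation
  have hdv : av A B (fun x y => dv a b lam x y ^ 2) ≤ 3 * β / ρ ^ 2 := by
    have e1 : ρ ^ 2 * S2 A B (fun x y => dv a b lam x y ^ 2) ≤ 3 * S2 A B (er a b lam ρ) := by
      rw [← S2_smul, ← S2_smul]
      unfold S2
      exact Finset.sum_le_sum fun x _ => Finset.sum_le_sum fun y _ =>
        (h3 X Y n lam a b ρ x y hρ hρl).1
    rw [le_div_iff₀ (by positivity)]
    have e2 : av A B (fun x y => dv a b lam x y ^ 2) * ρ ^ 2 * ((A.card : ℝ) * B.card) ≤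
        3 * β * ((A.card : ℝ) * B.card) := by
      have e3 := card_mul_av A B (fun x y => dv a b lam x y ^ 2)
      nlinarith
    exact le_of_mul_le_mul_right e2 hM
  set D : ℝ := √(3 * ((n : ℝ) + 1) * β) / ρ with hD
  have hD0 : 0 < D := by
    apply div_pos _ hρ
    apply Real.sqrt_pos.2
    positivity
  have hDle : √(((n : ℝ) + 1) * av A B (fun x y => dv a b lam x y ^ 2)) ≤ D := by
    have e0 : √(3 * ((n : ℝ) + 1) * β) / ρ = √(3 * ((n : ℝ) + 1) * β / ρ ^ 2) := by
      rw [Real.sqrt_div' _ (by positivity : (0 : ℝ) ≤ ρ ^ 2), Real.sqrt_sq hρ.le]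
    rw [hD, e0]
    apply Real.sqrt_le_sqrt
    calc ((n : ℝ) + 1) * av A B (fun x y => dv a b lam x y ^ 2)
        ≤ ((n : ℝ) + 1) * (3 * β / ρ ^ 2) := mul_le_mul_of_nonneg_left hdv (by positivity)
      _ = 3 * ((n : ℝ) + 1) * β / ρ ^ 2 := by ring
  obtain ⟨ι, _, u, v, A₁, hA₁, B₁, hB₁, cA, cB, hu, hv, huv⟩ :=
    h2 X Y n lam a b A B D hA hB hD0 hDle
  set L : ℝ := Real.log ((lam : ℝ) + 1) with hL
  have hL0 : 0 ≤ L := Real.log_nonneg (by linarith)
  set τ : ℝ := 10 * β with hτ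
  have hτ0 : 0 < τ := by positivity
  obtain ⟨A', hA', B', hB', hT⟩ := h1 X Y ι A₁ B₁ u v
    (fun x y => τ * gd a b lam x y - bw a b lam x y) (8 * D) lam L (1 / 4) hL0 (by linarith)
    (by norm_num) (by norm_num) hu hv (by
      intro x hx y hy
      rw [huv x (hA₁ hx) y (hB₁ hy)]
      unfold dv
      have : (0 : ℝ) ≤ ((a x ∩ b y).card : ℝ) := by positivity
      linarith)
  -- sizes
  set m : ℝ := (A₁.card : ℝ) * B₁.card with hm
  have hm1 : 49 * ((A.card : ℝ) * B.card) ≤ 64 * m := by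
    have : (7 * (A.card : ℝ)) * (7 * (B.card : ℝ)) ≤ (8 * (A₁.card : ℝ)) * (8 * (B₁.card : ℝ)) :=
      mul_le_mul cA cB (by positivity) (by positivity)
    rw [hm]
    nlinarith
  have hm0 : 0 < m := by linarith
  have hS1 : S2 A₁ B₁ (er a b lam ρ) ≤ β * (64 / 49 * m) := by
    calc S2 A₁ B₁ (er a b lam ρ) ≤ S2 A B (er a b lam ρ) :=
          S2_mono hA₁ hB₁ fun x _ y _ => her0 x y
      _ ≤ β * ((A.card : ℝ) * B.card) := hS
      _ ≤ β * (64 / 49 * m) := by
          apply mul_le_mul_of_nonneg_left _ hβ.le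
          linarith
  have hbad : S2 A₁ B₁ (fun x y => 1 - gd a b lam x y) ≤ 3 * (β * (64 / 49 * m)) := by
    calc S2 A₁ B₁ (fun x y => 1 - gd a b lam x y) ≤ S2 A₁ B₁ (fun x y => 3 * er a b lam ρ x y) := by
          unfold S2
          exact Finset.sum_le_sum fun x _ => Finset.sum_le_sum fun y _ =>
            (h3 X Y n lam a b ρ x y hρ hρl).2
      _ = 3 * S2 A₁ B₁ (er a b lam ρ) := S2_smul _ _ _ _
      _ ≤ 3 * (β * (64 / 49 * m)) := mul_le_mul_of_nonneg_left hS1 (by norm_num)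
  have hgood : m - 3 * (β * (64 / 49 * m)) ≤ S2 A₁ B₁ (gd a b lam) := by
    have e1 : S2 A₁ B₁ (fun x y => 1 - gd a b lam x y) = m - S2 A₁ B₁ (gd a b lam) := by
      unfold S2
      simp only [Finset.sum_sub_distrib, Finset.sum_const, nsmul_eq_mul, mul_one, hm]
    linarith
  -- the left-hand side
  have hP : τ * S2 A₁ B₁ (gd a b lam) ≤
      ∑ x ∈ A₁, ∑ y ∈ B₁, max (τ * gd a b lam x y - bw a b lam x y) 0 *
        Real.exp (L * ∑ i, u x i * v y i) := by
    rw [← S2_smul]
    unfold S2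
    refine Finset.sum_le_sum fun x hx => Finset.sum_le_sum fun y hy => ?_
    rw [huv x (hA₁ hx) y (hB₁ hy)]
    exact (point lam a b τ hτ0.le x y).1
  have hN : (∑ x ∈ A₁, ∑ y ∈ B₁, max (-(τ * gd a b lam x y - bw a b lam x y)) 0 *
        Real.exp (L * ∑ i, u x i * v y i)) ≤ S2 A₁ B₁ (fun x y => 1 - gd a b lam x y) := by
    unfold S2
    refine Finset.sum_le_sum fun x hx => Finset.sum_le_sum fun y hy => ?_
    rw [huv x (hA₁ hx) y (hB₁ hy)]
    exact (point lam a b τ hτ0.le x y).2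
  have hW : (∑ x ∈ A', ∑ y ∈ B', (τ * gd a b lam x y - bw a b lam x y)) =
      τ * S2 A' B' (gd a b lam) - S2 A' B' (bw a b lam) := by
    rw [← S2_smul]
    unfold S2
    rw [← Finset.sum_sub_distrib]
    refine Finset.sum_congr rfl fun x _ => ?_
    rw [← Finset.sum_sub_distrib]
  have hbw0 : 0 ≤ S2 A' B' (bw a b lam) := by
    apply S2_nonneg
    intro x _ y _
    unfold bw
    split_ifs
    · positivity
    · exact le_refl _
  set E : ℝ := Real.exp (2 * L * (8 * D + lam)) with hE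
  have hE0 : 0 < E := Real.exp_pos _
  have hmain : 24 / 100 * τ * m ≤ 64 * E * (τ * S2 A' B' (gd a b lam) - S2 A' B' (bw a b lam)) := by
    have e0 : 4 / (1 / 4 : ℝ) ^ 2 * E * (∑ x ∈ A', ∑ y ∈ B',
        (τ * gd a b lam x y - bw a b lam x y)) =
        64 * E * (τ * S2 A' B' (gd a b lam) - S2 A' B' (bw a b lam)) := by
      rw [hW]; norm_num
    rw [← e0]
    refine le_trans ?_ hT
    have e1 := mul_le_mul_of_nonneg_left hgood hτ0.le
    have e2 : (0 : ℝ) ≤ β * m := by positivity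
    have e3 : 24 / 100 * τ * m ≤ (1 - 1 / 4) * (τ * (m - 3 * (β * (64 / 49 * m)))) -
        3 * (β * (64 / 49 * m)) := by
      rw [hτ]
      have e4 : β * m * β ≤ β * m * (1 / 25) := mul_le_mul_of_nonneg_left hβ2 e2
      nlinarith
    nlinarith [hP, hN, hbad]
  have hpos : 0 < τ * S2 A' B' (gd a b lam) - S2 A' B' (bw a b lam) := by
    have e1 : 0 < 24 / 100 * τ * m := by positivity
    have e2 : 0 < 64 * E := by positivity
    by_contra hneg
    have := mul_nonpos_of_nonneg_of_nonpos e2.le (not_lt.1 hneg)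
    linarith
  refine ⟨A', hA'.trans hA₁, B', hB'.trans hB₁, by linarith, ?_⟩
  -- final numerical estimate
  have hgS : 24 / 100 * m ≤ 64 * E * S2 A' B' (gd a b lam) := by
    have e1 : 24 / 100 * τ * m ≤ 64 * E * (τ * S2 A' B' (gd a b lam)) := by
      refine hmain.trans ?_
      apply mul_le_mul_of_nonneg_left _ (by positivity)
      linarith
    have e2 : τ * (24 / 100 * m) ≤ τ * (64 * E * S2 A' B' (gd a b lam)) := by
      calc τ * (24 / 100 * m) = 24 / 100 * τ * m := by ring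
        _ ≤ _ := e1
        _ = τ * (64 * E * S2 A' B' (gd a b lam)) := by ring
    exact le_of_mul_le_mul_left e2 hτ0
  have hDb : 16 * D ≤ 80 * lam * √(n * β) := by
    have e1 : 1 / ρ ≤ 2 * lam := by
      rw [div_le_iff₀ hρ]
      linarith
    have e2 : √(3 * ((n : ℝ) + 1) * β) ≤ 5 / 2 * √(n * β) := by
      rw [Real.sqrt_le_left (by positivity), mul_pow, Real.sq_sqrt (by positivity)]
      nlinarith
    calc 16 * D = 16 * (√(3 * ((n : ℝ) + 1) * β) * (1 / ρ)) := by rw [hD]; ring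
      _ ≤ 16 * (5 / 2 * √(n * β) * (2 * lam)) := by
          apply mul_le_mul_of_nonneg_left _ (by norm_num)
          exact mul_le_mul e2 e1 (by positivity) (by positivity)
      _ = 80 * lam * √(n * β) := by ring
  have hEb : E ≤ Real.exp (L * (80 * lam * √(n * β) + 2 * lam)) := by
    rw [hE]
    apply Real.exp_le_exp.2
    have e1 : L * (16 * D + 2 * lam) ≤ L * (80 * lam * √(n * β) + 2 * lam) :=
      mul_le_mul_of_nonneg_left (by linarith) hL0
    linarith
  set F : ℝ := Real.exp (L * (80 * lam * √(n * β) + 2 * lam)) with hF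
  have hF0 : 0 < F := Real.exp_pos _
  have hexp : Real.exp (-(6 + L * (80 * lam * √(n * β) + 2 * lam))) = Real.exp (-6) / F := by
    rw [hF, ← Real.exp_sub]
    congr 1
    ring
  have he6 : Real.exp (-6) ≤ 24 / 100 / 64 * (49 / 64) := by
    have e1 : (2.7182818283 : ℝ) < Real.exp 1 := Real.exp_one_gt_d9
    have e2 : Real.exp 6 = Real.exp 1 ^ 6 := by
      rw [← Real.exp_nat_mul]
      norm_num
    have e3 : (350 : ℝ) ≤ Real.exp 6 := by
      rw [e2]
      calc (350 : ℝ) ≤ 2.7182818283 ^ 6 := by norm_num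
        _ ≤ Real.exp 1 ^ 6 := pow_le_pow_left₀ (by norm_num) e1.le 6
    rw [Real.exp_neg, inv_le_comm₀ (Real.exp_pos _) (by norm_num)]
    refine le_trans ?_ e3
    norm_num
  rw [hexp, div_mul_eq_mul_div, div_le_iff₀ hF0]
  have hSg0 : 0 ≤ S2 A' B' (gd a b lam) := by
    apply S2_nonneg
    intro x _ y _
    unfold gd
    split_ifs <;> norm_num
  have f1 : Real.exp (-6) * ((A.card : ℝ) * B.card) ≤
      24 / 100 / 64 * (49 / 64) * ((A.card : ℝ) * B.card) :=
    mul_le_mul_of_nonneg_right he6 hM.le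
  have f2 : E * S2 A' B' (gd a b lam) ≤ F * S2 A' B' (gd a b lam) :=
    mul_le_mul_of_nonneg_right hEb hSg0
  nlinarith

end Pool.Agent.LSB
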