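import Pool.Agent.LSB.Stmts
import Pool.Agent.LIS.SmallE

/-!
MP_132c09_co, Theorem B: assembly.
-/

namespace Pool.Agent.LSB

open Finset Pool.Agent.LIS

section cases

variable {n : ℕ}

lemma av_le_of_S2 {X Y : Type} {A : Finset X} {B : Finset Y} {g : X → Y → ℝ} {c : ℝ}
    (hA : A.Nonempty) (hB : B.Nonempty) (h : S2 A B g ≤ c * ((A.card : ℝ) * B.card)) :
    av A B g ≤ c := by
  have hα : (0 : ℝ) < A.card := by exact_mod_cast hA.card_pos
  have hβ : (0 : ℝ) < B.card := by exact_mod_cast hB.card_pos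
  unfold av
  rw [div_le_iff₀ (mul_pos hα hβ)]
  exact h

/-- the main case -/
theorem case_d (hITR : Stmt_ITR) (hLST : Stmt_LST) (hCHO : Stmt_CHO) (lam : ℕ) (hl : 1 ≤ lam)
    (hn : 1 ≤ n) (A₀ B₀ : Finset (Finset (Fin n))) (hA₀ : A₀.Nonempty) (hB₀ : B₀.Nonempty)
    (ε : ℝ) (hε : 0 < ε) (hεl : ε * lam < 1 / 5308416)
    (hq : Real.log (4 / ε) < √(n * ε))
    (hbad : S2 A₀ B₀ (fun S T => if (S ∩ T).card = lam then 0 else 1) ≤
      ε * ((A₀.card : ℝ) * B₀.card)) :
    ∃ A' ⊆ A₀, ∃ B' ⊆ B₀, (∀ S ∈ A', ∀ T ∈ B', (S ∩ T).card = lam) ∧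
      Real.exp (-(20000 * (√(n * ε) * (Real.log (4 / ε) + lam * Real.log (lam + 1))))) *
        ((A₀.card : ℝ) * B₀.card) ≤ (A'.card : ℝ) * B'.card := by
  classical
  have hα : (0 : ℝ) < A₀.card := by exact_mod_cast hA₀.card_pos
  have hβ : (0 : ℝ) < B₀.card := by exact_mod_cast hB₀.card_pos
  have hM : (0 : ℝ) < (A₀.card : ℝ) * B₀.card := mul_pos hα hβ
  have hn' : (1 : ℝ) ≤ n := by exact_mod_cast hn
  have hl' : (1 : ℝ) ≤ lam := by exact_mod_cast hl
  have hεs : ε < 1 / 5308416 := by nlinarith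
  set q : ℝ := √(n * ε) with hqdef
  have hqq : q * q = n * ε := Real.mul_self_sqrt (by positivity)
  set Λ : ℝ := Real.log (4 / ε) with hΛ
  -- Λ is large
  have hΛ16 : 16 ≤ Λ := by
    have h1 : Real.exp 16 ≤ 4 / ε := by
      have h2 : Real.exp 16 = (Real.exp 1) ^ 16 := by rw [← Real.exp_nat_mul]; norm_num
      have h3 : (Real.exp 1) ^ 16 ≤ (2.7182818286 : ℝ) ^ 16 :=
        pow_le_pow_left₀ (Real.exp_pos _).le Real.exp_one_lt_d9.le 16
      have h4 : (2.7182818286 : ℝ) ^ 16 ≤ 21000000 := by norm_num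
      have h5 : (21000000 : ℝ) ≤ 4 / ε := by
        rw [le_div_iff₀ hε]
        linarith
      linarith
    have := Real.log_le_log (Real.exp_pos _) h1
    rwa [Real.log_exp] at this
  have hq16 : 16 ≤ q := by linarith
  -- the first scale
  set ρ : ℝ := √(ε / lam) with hρdef
  have hρ0 : 0 < ρ := Real.sqrt_pos.mpr (by positivity)
  have hρρ : ρ * ρ = ε / lam := Real.mul_self_sqrt (by positivity)
  have hρρl : ρ * ρ * lam = ε := by rw [hρρ]; field_simp
  have hρl : ρ * lam ≤ 1 / 2304 := by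
    have h1 : (ρ * lam) * (ρ * lam) = ε * lam := by
      have : (ρ * lam) * (ρ * lam) = (ρ * ρ * lam) * lam := by ring
      rw [this, hρρl]
    have h2 : 0 ≤ ρ * lam := by positivity
    nlinarith
  have hρ1 : ρ < 1 := by nlinarith
  obtain ⟨A₁, hA₁, B₁, hB₁, hbig₁, hS₁⟩ := phase1 (fun S : Finset (Fin n) => S)
    (fun T : Finset (Fin n) => T) lam A₀ B₀ hA₀ hB₀ hn ε ρ hε hρ0 hρ1 (by linarith) hbad
  have hAB1 : 0 < (A₁.card : ℝ) * B₁.card := lt_of_lt_of_le (by positivity) hbig₁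
  have hA1ne : A₁.Nonempty := by
    by_contra hcon
    rw [Finset.not_nonempty_iff_eq_empty] at hcon
    rw [hcon] at hAB1
    simp at hAB1
  have hB1ne : B₁.Nonempty := by
    by_contra hcon
    rw [Finset.not_nonempty_iff_eq_empty] at hcon
    rw [hcon] at hAB1
    simp at hAB1
  have hav1 : av A₁ B₁ (er (fun S : Finset (Fin n) => S) (fun T : Finset (Fin n) => T) lam ρ) ≤
      12 * ε := by
    apply av_le_of_S2 hA1ne hB1ne
    refine le_trans ?_ hS₁
    apply Finset.sum_le_sum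
    intro S _
    apply Finset.sum_le_sum
    intro T _
    unfold er dv
    beta_reduce
    split_ifs with h
    · exact le_refl _
    · have h1 : 0 < 1 - ρ := by linarith
      rw [le_div_iff₀ (by positivity)]
      have h2 : (1 - ρ) ^ (S ∩ T).card ≤ Real.exp (-ρ) ^ (S ∩ T).card :=
        pow_le_pow_left₀ h1.le (by linarith [Real.add_one_le_exp (-ρ)]) _
      have h3 : Real.exp (-ρ) ^ (S ∩ T).card = Real.exp (-(ρ * (S ∩ T).card)) := by
        rw [← Real.exp_nat_mul]; congr 1; ring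
      rw [h3] at h2
      calc Real.exp (ρ * (((S ∩ T).card : ℝ) - lam)) * (1 - ρ) ^ (S ∩ T).card
          ≤ Real.exp (ρ * (((S ∩ T).card : ℝ) - lam)) * Real.exp (-(ρ * (S ∩ T).card)) :=
            mul_le_mul_of_nonneg_left h2 (Real.exp_pos _).le
        _ = Real.exp (-(ρ * lam)) := by rw [← Real.exp_add]; congr 1; ring
        _ ≤ 1 := by
            rw [Real.exp_le_one_iff]
            have : 0 ≤ ρ * lam := by positivity
            linarith
  -- the number of stages
  obtain ⟨J, hJ1, hJ2⟩ : ∃ J : ℕ, (2 : ℝ) ^ J * ρ * lam ≤ 1 ∧ 1 < (2 : ℝ) ^ (J + 1) * ρ * lam := by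
    have hex : ∃ j : ℕ, 1 < (2 : ℝ) ^ (j + 1) * ρ * lam := by
      obtain ⟨j, hj⟩ := pow_unbounded_of_one_lt (1 / (ρ * lam)) (by norm_num : (1 : ℝ) < 2)
      refine ⟨j, ?_⟩
      rw [div_lt_iff₀ (by positivity)] at hj
      have h1 : (2 : ℝ) ^ j ≤ 2 ^ (j + 1) := pow_le_pow_right₀ (by norm_num) (by omega)
      have h2 : 0 < ρ * lam := by positivity
      nlinarith
    refine ⟨Nat.find hex, ?_, Nat.find_spec hex⟩
    by_contra hcon
    push Not at hcon
    rcases Nat.eq_zero_or_pos (Nat.find hex) with h0 | hpos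
    · rw [h0] at hcon
      norm_num at hcon
      linarith
    · have h1 := Nat.find_min hex (m := Nat.find hex - 1) (by omega)
      have h2 : Nat.find hex - 1 + 1 = Nat.find hex := by omega
      rw [h2] at h1
      exact h1 hcon
  -- J is at least 4
  have hJ4 : 4 ≤ J := by
    by_contra hcon
    push Not at hcon
    have h1 : (2 : ℝ) ^ (J + 1) ≤ 2 ^ 4 := pow_le_pow_right₀ (by norm_num) (by omega)
    have h2 : 0 < ρ * lam := by positivity
    nlinarith
  have h2Jε : ((2 : ℝ) ^ J) ^ 2 * ε ≤ 1 := by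
    have h1 : ((2 : ℝ) ^ J * ρ * lam) ^ 2 ≤ 1 := pow_le_one₀ (by positivity) hJ1
    have h2 : ((2 : ℝ) ^ J * ρ * lam) ^ 2 = ((2 : ℝ) ^ J) ^ 2 * ((ρ * ρ * lam) * lam) := by ring
    rw [h2, hρρl] at h1
    have h3 : ((2 : ℝ) ^ J) ^ 2 * ε ≤ ((2 : ℝ) ^ J) ^ 2 * (ε * lam) := by
      apply mul_le_mul_of_nonneg_left _ (by positivity)
      nlinarith
    linarith
  have hJJ : (J : ℝ) ^ 2 ≤ 2 ^ J := by
    have h1 : ∀ j : ℕ, 4 ≤ j → j ^ 2 ≤ 2 ^ j := by
      intro j hj
      induction j, hj using Nat.le_induction with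
      | base => norm_num
      | succ k hk ih =>
        rw [pow_succ 2 k]
        nlinarith
    exact_mod_cast h1 J hJ4
  have hJ0 : (4 : ℝ) ≤ J := by exact_mod_cast hJ4
  have hJ4ε : (J : ℝ) ^ 4 * ε ≤ 1 := by
    have h1 : (J : ℝ) ^ 4 ≤ ((2 : ℝ) ^ J) ^ 2 := by
      have : (J : ℝ) ^ 4 = ((J : ℝ) ^ 2) ^ 2 := by ring
      rw [this]
      exact pow_le_pow_left₀ (by positivity) hJJ 2
    have := mul_le_mul_of_nonneg_right h1 hε.le
    linarith
  have hJε : 10400 * (J : ℝ) * ε ≤ 1 := by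
    by_contra hcon
    push Not at hcon
    have h1 : 1 < (10400 * (J : ℝ) * ε) ^ 4 := one_lt_pow₀ hcon (by norm_num)
    have h2 : (10400 * (J : ℝ) * ε) ^ 4 = 10400 ^ 4 * ε ^ 3 * ((J : ℝ) ^ 4 * ε) := by ring
    rw [h2] at h1
    have h3 : 10400 ^ 4 * ε ^ 3 * ((J : ℝ) ^ 4 * ε) ≤ 10400 ^ 4 * ε ^ 3 * 1 :=
      mul_le_mul_of_nonneg_left hJ4ε (by positivity)
    have h4 : ε ^ 3 ≤ (1 / 5308416) ^ 3 := pow_le_pow_left₀ hε.le hεs.le 3
    have h5 : (10400 : ℝ) ^ 4 * (1 / 5308416) ^ 3 < 1 := by norm_num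
    nlinarith
  have hJΛ : (J : ℝ) ≤ Λ := by
    -- 2^(2J) ≤ 1/ε, so J log 4 ≤ log (1/ε) ≤ Λ
    have h1 : ((2 : ℝ) ^ J) ^ 2 ≤ 4 / ε := by
      rw [le_div_iff₀ hε]
      linarith
    have h2 : Real.exp J ≤ ((2 : ℝ) ^ J) ^ 2 := by
      have h3 : ((2 : ℝ) ^ J) ^ 2 = 4 ^ J := by
        rw [← pow_mul, mul_comm, pow_mul]; norm_num
      rw [h3]
      have h4 : Real.exp J = (Real.exp 1) ^ J := by rw [← Real.exp_nat_mul]; norm_num
      rw [h4]
      exact pow_le_pow_left₀ (Real.exp_pos _).le (by linarith [Real.exp_one_lt_d9]) J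
    have h3 := Real.log_le_log (Real.exp_pos _) (h2.trans h1)
    rwa [Real.log_exp] at h3
  -- the stages
  obtain ⟨A₂, hA₂, B₂, hB₂, hA2ne, hB2ne, hav2, hbig₂⟩ := hITR _ _ n lam
    (fun S : Finset (Fin n) => S) (fun T : Finset (Fin n) => T) A₁ B₁ ρ ε (13 * ε) J J hn
    (by omega) (le_refl _) hρ0 hJ1 hε hA1ne hB1ne (by linarith) (by linarith)
  -- the last tilt
  obtain ⟨A₃, hA₃, B₃, hB₃, hbw, hbig₃⟩ := hLST _ _ n lam
    (fun S : Finset (Fin n) => S) (fun T : Finset (Fin n) => T) A₂ B₂ (2 ^ J * ρ) (104 * ε) hn hl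
    hJ1 (by rw [pow_succ] at hJ2; linarith) hA2ne hB2ne (by positivity) (by linarith)
    (by linarith)
  have hAB2 : 0 < (A₂.card : ℝ) * B₂.card := by
    have h1 : (0 : ℝ) < A₂.card := by exact_mod_cast hA2ne.card_pos
    have h2 : (0 : ℝ) < B₂.card := by exact_mod_cast hB2ne.card_pos
    positivity
  have hZ : 0 < S2 A₃ B₃ (gd (fun S : Finset (Fin n) => S) (fun T : Finset (Fin n) => T) lam) :=
    lt_of_lt_of_le (by positivity) hbig₃
  -- the choice of the common intersection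
  obtain ⟨A₄, hA₄, B₄, hB₄, I, hI, hint, hbig₄⟩ := hCHO _ _ n lam
    (fun S : Finset (Fin n) => S) (fun T : Finset (Fin n) => T) A₃ B₃ (1040 * ε) hn
    (by positivity) (by linarith) hZ (by linarith)
  refine ⟨A₄, hA₄.trans (hA₃.trans (hA₂.trans hA₁)), B₄, hB₄.trans (hB₃.trans (hB₂.trans hB₁)),
    fun S hS T hT => by rw [hint S hS T hT, hI], le_trans ?_ hbig₄⟩
  -- numerics
  set L : ℝ := Real.log (lam + 1) with hL
  have hL0 : 0.69 ≤ L := by
    have h3 : Real.log 2 ≤ Real.log (lam + 1) := Real.log_le_log (by norm_num) (by linarith)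
    linarith [Real.log_two_gt_d9]
  have hlL : 0.69 * lam ≤ lam * L := by nlinarith
  have hlL0 : 0.69 ≤ lam * L := by nlinarith
  -- phase 1
  have p1 : √(ρ * n * (ρ * lam + ε)) ≤ 1.42 * q := by
    rw [Real.sqrt_le_left (by positivity)]
    have e : (1.42 * q) ^ 2 = 1.42 ^ 2 * (n * ε) := by
      have : (1.42 * q) ^ 2 = 1.42 ^ 2 * (q * q) := by ring
      rw [this, hqq]
    rw [e]
    have h1 : ρ * n * (ρ * lam + ε) = n * (ρ * ρ * lam) + n * (ρ * ε) := by ring
    rw [h1, hρρl]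
    have h2 : n * (ρ * ε) ≤ n * ε := by
      apply mul_le_mul_of_nonneg_left _ (by linarith)
      nlinarith
    have h3 : 0 ≤ (n : ℝ) * ε := by positivity
    nlinarith
  -- stages
  have p2 : √(n * (13 * ε)) ≤ 3.61 * q := by
    rw [Real.sqrt_le_left (by positivity)]
    have e : (3.61 * q) ^ 2 = 3.61 ^ 2 * (n * ε) := by
      have : (3.61 * q) ^ 2 = 3.61 ^ 2 * (q * q) := by ring
      rw [this, hqq]
    rw [e]
    have h3 : 0 ≤ (n : ℝ) * ε := by positivity
    nlinarith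
  have p3 : √(n * (104 * ε)) ≤ 10.2 * q := by
    rw [Real.sqrt_le_left (by positivity)]
    have e : (10.2 * q) ^ 2 = 10.2 ^ 2 * (n * ε) := by
      have : (10.2 * q) ^ 2 = 10.2 ^ 2 * (q * q) := by ring
      rw [this, hqq]
    rw [e]
    have h3 : 0 ≤ (n : ℝ) * ε := by positivity
    nlinarith
  have p4 : √(n * (2 * (1040 * ε))) ≤ 45.61 * q := by
    rw [Real.sqrt_le_left (by positivity)]
    have e : (45.61 * q) ^ 2 = 45.61 ^ 2 * (n * ε) := by
      have : (45.61 * q) ^ 2 = 45.61 ^ 2 * (q * q) := by ring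
      rw [this, hqq]
    rw [e]
    have h3 : 0 ≤ (n : ℝ) * ε := by positivity
    nlinarith
  have hlogn : Real.log n ≤ 3 * q := by
    have h1 : (n : ℝ) = q * q / ε := by rw [hqq]; field_simp
    rw [h1, Real.log_div (by positivity) (by positivity), Real.log_mul (by positivity)
      (by positivity)]
    have h2 : Real.log q ≤ q - 1 := Real.log_le_sub_one_of_pos (by linarith)
    have h3 : Λ = Real.log 4 - Real.log ε := by
      rw [hΛ, Real.log_div (by norm_num) (by positivity)]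
    have h4 : 0 ≤ Real.log 4 := Real.log_nonneg (by norm_num)
    linarith
  have hchoose : ((n.choose lam : ℕ) : ℝ) ≤ Real.exp (4.4 * (q * (lam * L))) := by
    have h3 : ((n.choose lam : ℕ) : ℝ) ≤ (n : ℝ) ^ lam := by exact_mod_cast Nat.choose_le_pow n lam
    have h5 : (n : ℝ) ^ lam = Real.exp (lam * Real.log n) := by
      rw [mul_comm, Real.exp_mul, Real.exp_log (by linarith), Real.rpow_natCast]
    rw [h5] at h3
    refine h3.trans (Real.exp_le_exp.mpr ?_)
    have h6 : (lam : ℝ) * Real.log n ≤ lam * (3 * q) :=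
      mul_le_mul_of_nonneg_left hlogn (by linarith)
    have h7 : (lam : ℝ) ≤ 1.45 * (lam * L) := by nlinarith
    have h8 : q * lam ≤ q * (1.45 * (lam * L)) := mul_le_mul_of_nonneg_left h7 (by linarith)
    have h9 : 0 ≤ q * (lam * L) := by positivity
    linarith
  have hCpos : (0 : ℝ) < ((n.choose lam : ℕ) : ℝ) := by
    rcases Nat.eq_zero_or_pos (n.choose lam) with h0 | h0
    · exfalso
      have hle : lam ≤ n := by
        rw [← hI]
        have := Finset.card_le_univ I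
        rwa [Fintype.card_fin] at this
      have := Nat.choose_pos hle
      omega
    · exact_mod_cast h0
  -- lower bounds of all the factors
  have b1 : Real.exp (-1 - 13090 * q) ≤
      3 / 4 * Real.exp (-(9216 * √(ρ * n * (ρ * lam + ε)))) := by
    have h1 : Real.exp (-1) ≤ 3 / 4 := by
      rw [Real.exp_neg, inv_le_comm₀ (Real.exp_pos _) (by norm_num)]
      linarith [Real.exp_one_gt_d9]
    have h2 : Real.exp (-(13090 * q)) ≤ Real.exp (-(9216 * √(ρ * n * (ρ * lam + ε)))) := by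
      apply Real.exp_le_exp.mpr
      linarith
    have h3 : Real.exp (-1 - 13090 * q) = Real.exp (-1) * Real.exp (-(13090 * q)) := by
      rw [← Real.exp_add]; congr 1
    rw [h3]
    exact mul_le_mul h1 h2 (Real.exp_pos _).le (by norm_num)
  have b2 : Real.exp (-(440 * (q * Λ))) ≤ (ε / (13 * ε)) ^ (5 * J) *
      (Real.exp (-(23 + 120 * √(n * (13 * ε)))) / (J : ℝ) ^ 3) ^ J := by
    have h1 : ε / (13 * ε) = 1 / 13 := by field_simp
    rw [h1, pow_mul, ← mul_pow]
    have h2 : Real.exp (-(440 * q)) ≤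
        (1 / 13) ^ 5 * (Real.exp (-(23 + 120 * √(n * (13 * ε)))) / (J : ℝ) ^ 3) := by
      have h3 : Real.exp (-13) ≤ (1 / 13) ^ 5 := by
        have h4 : Real.exp (-13) = (Real.exp 1 ^ 13)⁻¹ := by
          rw [← Real.exp_nat_mul, ← Real.exp_neg]; norm_num
        rw [h4, one_div, inv_pow]
        apply inv_anti₀ (by positivity)
        have h5 : (2.7182818283 : ℝ) ^ 13 ≤ Real.exp 1 ^ 13 :=
          pow_le_pow_left₀ (by norm_num) Real.exp_one_gt_d9.le 13
        have h6 : (13 : ℝ) ^ 5 ≤ (2.7182818283 : ℝ) ^ 13 := by norm_num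
        linarith
      have h4 : Real.exp (-(3 * q)) ≤ 1 / (J : ℝ) ^ 3 := by
        rw [Real.exp_neg, one_div]
        apply inv_anti₀ (by positivity)
        have h5 : (J : ℝ) ≤ Real.exp q := by
          have := Real.add_one_le_exp q
          linarith
        have h6 : Real.exp (3 * q) = Real.exp q ^ 3 := by rw [← Real.exp_nat_mul]; norm_num
        rw [h6]
        exact pow_le_pow_left₀ (by linarith) h5 3
      have h5 : Real.exp (-(23 + 433.2 * q)) ≤ Real.exp (-(23 + 120 * √(n * (13 * ε)))) := by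
        apply Real.exp_le_exp.mpr
        linarith
      calc Real.exp (-(440 * q)) ≤ Real.exp (-13) * (Real.exp (-(23 + 433.2 * q)) *
            Real.exp (-(3 * q))) := by
            rw [← Real.exp_add, ← Real.exp_add]
            apply Real.exp_le_exp.mpr
            linarith
        _ ≤ (1 / 13) ^ 5 * (Real.exp (-(23 + 120 * √(n * (13 * ε)))) * (1 / (J : ℝ) ^ 3)) := by
            apply mul_le_mul h3 _ (by positivity) (by positivity)
            exact mul_le_mul h5 h4 (by positivity) (by positivity)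
        _ = _ := by ring
    have h3 : Real.exp (-(440 * (q * Λ))) ≤ Real.exp (-(440 * q)) ^ J := by
      rw [← Real.exp_nat_mul]
      apply Real.exp_le_exp.mpr
      have : q * J ≤ q * Λ := mul_le_mul_of_nonneg_left hJΛ (by linarith)
      linarith
    exact h3.trans (pow_le_pow_left₀ (Real.exp_pos _).le h2 J)
  have b3 : Real.exp (-(6 + 820 * (q * (lam * L)))) ≤
      Real.exp (-(6 + L * (80 * lam * √(n * (104 * ε)) + 2 * lam))) := by
    apply Real.exp_le_exp.mpr
    have h1 : L * (80 * lam * √(n * (104 * ε)) + 2 * lam) =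
        (80 * √(n * (104 * ε)) + 2) * (lam * L) := by ring
    rw [h1]
    have h2 : (80 * √(n * (104 * ε)) + 2) * (lam * L) ≤ (820 * q) * (lam * L) := by
      apply mul_le_mul_of_nonneg_right _ (by linarith)
      linarith
    linarith
  have b4 : Real.exp (-(1 + 140115 * q)) ≤
      3 / 8 * Real.exp (-(3072 * √(n * (2 * (1040 * ε))))) := by
    have h1 : Real.exp (-1) ≤ 3 / 8 := by
      rw [Real.exp_neg, inv_le_comm₀ (Real.exp_pos _) (by norm_num)]
      linarith [Real.exp_one_gt_d9]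
    have h2 : Real.exp (-(140115 * q)) ≤ Real.exp (-(3072 * √(n * (2 * (1040 * ε))))) := by
      apply Real.exp_le_exp.mpr
      linarith
    have h3 : Real.exp (-(1 + 140115 * q)) = Real.exp (-1) * Real.exp (-(140115 * q)) := by
      rw [← Real.exp_add]; congr 1; ring
    rw [h3]
    exact mul_le_mul h1 h2 (Real.exp_pos _).le (by norm_num)
  have b5 : Real.exp (-(4.4 * (q * (lam * L)))) ≤ 1 / ((n.choose lam : ℕ) : ℝ) := by
    rw [Real.exp_neg, one_div]
    exact inv_anti₀ hCpos hchoose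
  -- chain
  have c1 : Real.exp (-1 - 13090 * q) * ((A₀.card : ℝ) * B₀.card) ≤ (A₁.card : ℝ) * B₁.card :=
    (mul_le_mul_of_nonneg_right b1 hM.le).trans hbig₁
  have c2 : Real.exp (-(440 * (q * Λ))) * ((A₁.card : ℝ) * B₁.card) ≤ (A₂.card : ℝ) * B₂.card :=
    (mul_le_mul_of_nonneg_right b2 hAB1.le).trans hbig₂
  have c3 : Real.exp (-(6 + 820 * (q * (lam * L)))) * ((A₂.card : ℝ) * B₂.card) ≤
      S2 A₃ B₃ (gd (fun S : Finset (Fin n) => S) (fun T : Finset (Fin n) => T) lam) :=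
    (mul_le_mul_of_nonneg_right b3 hAB2.le).trans hbig₃
  set Z : ℝ := S2 A₃ B₃ (gd (fun S : Finset (Fin n) => S) (fun T : Finset (Fin n) => T) lam)
  have c4 : Real.exp (-(1 + 140115 * q)) * (Real.exp (-(4.4 * (q * (lam * L)))) * Z) ≤
      3 / 4 * Real.exp (-(3072 * √(n * (2 * (1040 * ε))))) * (Z / (2 * (n.choose lam : ℕ))) := by
    calc Real.exp (-(1 + 140115 * q)) * (Real.exp (-(4.4 * (q * (lam * L)))) * Z)
        ≤ (3 / 8 * Real.exp (-(3072 * √(n * (2 * (1040 * ε)))))) *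
          ((1 / ((n.choose lam : ℕ) : ℝ)) * Z) := by
          apply mul_le_mul b4 (mul_le_mul_of_nonneg_right b5 hZ.le) (by positivity) (by positivity)
      _ = _ := by field_simp; norm_num
  refine le_trans ?_ c4
  have e1 : Real.exp (-(20000 * (q * (Λ + lam * L)))) ≤
      Real.exp (-(1 + 140115 * q)) * (Real.exp (-(4.4 * (q * (lam * L)))) *
      (Real.exp (-(6 + 820 * (q * (lam * L)))) * (Real.exp (-(440 * (q * Λ))) *
        Real.exp (-1 - 13090 * q)))) := by
    rw [← Real.exp_add, ← Real.exp_add, ← Real.exp_add, ← Real.exp_add]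
    apply Real.exp_le_exp.mpr
    have h1 : 16 * q ≤ q * Λ := by nlinarith
    have h2 : 0 ≤ q * (lam * L) := by positivity
    have h3 : q * (Λ + lam * L) = q * Λ + q * (lam * L) := by ring
    rw [h3]
    linarith
  calc Real.exp (-(20000 * (q * (Λ + lam * L)))) * ((A₀.card : ℝ) * B₀.card)
      ≤ (Real.exp (-(1 + 140115 * q)) * (Real.exp (-(4.4 * (q * (lam * L)))) *
      (Real.exp (-(6 + 820 * (q * (lam * L)))) * (Real.exp (-(440 * (q * Λ))) *
        Real.exp (-1 - 13090 * q))))) * ((A₀.card : ℝ) * B₀.card) :=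
        mul_le_mul_of_nonneg_right e1 hM.le
    _ = Real.exp (-(1 + 140115 * q)) * (Real.exp (-(4.4 * (q * (lam * L)))) *
      (Real.exp (-(6 + 820 * (q * (lam * L)))) * (Real.exp (-(440 * (q * Λ))) *
        (Real.exp (-1 - 13090 * q) * ((A₀.card : ℝ) * B₀.card))))) := by ring
    _ ≤ Real.exp (-(1 + 140115 * q)) * (Real.exp (-(4.4 * (q * (lam * L)))) *
      (Real.exp (-(6 + 820 * (q * (lam * L)))) * (Real.exp (-(440 * (q * Λ))) *
        ((A₁.card : ℝ) * B₁.card)))) := by gcongr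
    _ ≤ Real.exp (-(1 + 140115 * q)) * (Real.exp (-(4.4 * (q * (lam * L)))) *
      (Real.exp (-(6 + 820 * (q * (lam * L)))) * ((A₂.card : ℝ) * B₂.card))) := by gcongr
    _ ≤ Real.exp (-(1 + 140115 * q)) * (Real.exp (-(4.4 * (q * (lam * L)))) * Z) := by gcongr

end cases

end Pool.Agent.LSB
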