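import Pool.Agent.LSB.Stmts
import Pool.Agent.BddInt.RankFin

/-!
# RKF: very few bad pairs (helper76)
-/

set_option autoImplicit false

namespace Pool.Agent.LSB

open Finset Pool.Agent.LIS

namespace RKF_

open Pool.Agent.BddInt

/-- the rank of the shifted intersection matrix -/
theorem rk_inter {X Y : Type} (n lam : ℕ) (a : X → Finset (Fin n)) (b : Y → Finset (Fin n))
    (A : Finset X) (B : Finset Y) :
    rk (fun x y => ((a x ∩ b y).card : ℤ) - lam) A B ≤ n + 1 := by
  classical
  refine (rk_sub_le (fun x y => ((a x ∩ b y).card : ℤ)) lam A B).trans ?_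
  refine Nat.add_le_add_right ?_ 1
  unfold rk
  have h : (Matrix.of fun (x : A) (y : B) => (((a x.1 ∩ b y.1).card : ℤ) : ℝ)) =
      (Matrix.of fun (x : A) (i : Fin n) => if i ∈ a x.1 then (1 : ℝ) else 0) *
        (Matrix.of fun (i : Fin n) (y : B) => if i ∈ b y.1 then (1 : ℝ) else 0) := by
    ext x y
    simp only [Matrix.of_apply, Matrix.mul_apply, ← ite_and, mul_ite, mul_one, mul_zero]
    rw [Finset.sum_boole]
    congr 1
    have h2 : (Finset.univ.filter fun i : Fin n => i ∈ b y.1 ∧ i ∈ a x.1) = a x.1 ∩ b y.1 := by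
      ext i; simp [and_comm]
    rw [h2]
  rw [h]
  refine (Matrix.rank_mul_le_left _ _).trans ?_
  refine (Matrix.rank_le_card_width _).trans ?_
  simp

end RKF_

open RKF_ in
theorem rkf_proof : Stmt_RKF := by
  intro X Y n lam a b A B η h0 h1 hS
  set N : X → Y → ℤ := fun x y => ((a x ∩ b y).card : ℤ) - lam with hN
  have hz : ∀ x y, N x y = 0 ↔ (a x ∩ b y).card = lam := by
    intro x y
    rw [hN]
    show ((a x ∩ b y).card : ℤ) - lam = 0 ↔ _
    omega
  have hcnt : (Pool.Agent.BddInt.cnt N 0 A B : ℝ) = S2 A B (gd a b lam) := by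
    unfold Pool.Agent.BddInt.cnt S2 gd
    rw [Finset.card_filter, Finset.sum_product]
    push_cast
    refine Finset.sum_congr rfl fun x _ => Finset.sum_congr rfl fun y _ => ?_
    by_cases h : (a x ∩ b y).card = lam
    · rw [if_pos h, if_pos ((hz x y).mpr h)]
    · rw [if_neg h, if_neg fun h2 => h ((hz x y).mp h2)]
  have hbad : (Pool.Agent.BddInt.bad N 0 A B : ℝ) ≤ η * (A.card * B.card) := by
    have h2 := Pool.Agent.BddInt.cnt_add_bad_real N 0 A B
    rw [hcnt] at h2
    linarith
  obtain ⟨A', hA, B', hB, hzero, hcard⟩ := Pool.Agent.BddInt.RankFin_proof X Y N A B (n + 1) η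
    (rk_inter n lam a b A B) h0 (by push_cast; exact h1) hbad
  refine ⟨A', hA, B', hB, fun x hx y hy => (hz x y).mp (hzero x hx y hy), ?_⟩
  have h3 : ((n + 1 : ℕ) : ℝ) = (n : ℝ) + 1 := by push_cast; ring
  rw [h3] at hcard
  exact hcard

end Pool.Agent.LSB
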