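import Pool.Agent.LSB.Stmts

/-!
Module SQE: the square of the deviation is controlled by the exponential weight.
-/

namespace Pool.Agent.LSB

open Finset Pool.Agent.LIS

namespace SQE_

lemma key (z : ℝ) (hz : -1 ≤ z) : z ^ 2 ≤ 3 * Real.exp z ∧ 1 ≤ 3 * Real.exp z := by
  rcases le_or_gt 0 z with h | h
  · have h1 := Real.quadratic_le_exp_of_nonneg h
    constructor
    · nlinarith [sq_nonneg z]
    · nlinarith [sq_nonneg z]
  · have h1 : Real.exp (-1) ≤ Real.exp z := Real.exp_le_exp.mpr hz
    have h2 : Real.exp 1 < 3 := lt_trans Real.exp_one_lt_d9 (by norm_num)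
    have h3 : Real.exp (-1) * Real.exp 1 = 1 := by
      rw [← Real.exp_add]; norm_num
    have h4 : 0 < Real.exp (-1) := Real.exp_pos _
    have h5 : 1 ≤ 3 * Real.exp (-1) := by nlinarith
    constructor
    · nlinarith
    · linarith

end SQE_

theorem sqe_proof : Stmt_SQE := by
  intro X Y n lam a b ρ x y hρ hl
  by_cases h : (a x ∩ b y).card = lam
  · simp [gd, er, dv, h]
  · have hz : -1 ≤ ρ * dv a b lam x y := by
      have h1 : (0 : ℝ) ≤ ((a x ∩ b y).card : ℝ) := Nat.cast_nonneg _
      have h2 : 0 ≤ ρ * ((a x ∩ b y).card : ℝ) := mul_nonneg hρ.le h1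
      unfold dv
      rw [mul_sub]
      linarith
    obtain ⟨h1, h2⟩ := SQE_.key _ hz
    constructor
    · rw [← mul_pow]
      simpa [er, h] using h1
    · simpa [er, gd, h] using h2

end Pool.Agent.LSB
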