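import Pool.Agent.LSB.Stmts

/-!
Squad LSB, module STG: one stage (the scale `ρ` is doubled).
-/

namespace Pool.Agent.LSB

open Finset Pool.Agent.LIS

namespace STG_

lemma S2_le {X Y : Type} {A : Finset X} {B : Finset Y} {g h : X → Y → ℝ}
    (H : ∀ x ∈ A, ∀ y ∈ B, g x y ≤ h x y) : S2 A B g ≤ S2 A B h :=
  Finset.sum_le_sum fun x hx => Finset.sum_le_sum fun y hy => H x hx y hy

lemma av_le {X Y : Type} {A : Finset X} {B : Finset Y} {g h : X → Y → ℝ}
    (H : ∀ x ∈ A, ∀ y ∈ B, g x y ≤ h x y) : av A B g ≤ av A B h := by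
  unfold av
  exact div_le_div_of_nonneg_right (S2_le H) (by positivity)

lemma S2_const {X Y : Type} (A : Finset X) (B : Finset Y) (c : ℝ) :
    S2 A B (fun _ _ => c) = c * ((A.card : ℝ) * B.card) := by
  unfold S2
  simp only [Finset.sum_const, nsmul_eq_mul]
  ring

lemma er_nonneg {X Y : Type} {n : ℕ} (a : X → Finset (Fin n)) (b : Y → Finset (Fin n))
    (lam : ℕ) (ρ : ℝ) (x : X) (y : Y) : 0 ≤ er a b lam ρ x y := by
  unfold er
  split_ifs
  · exact le_refl _
  · exact (Real.exp_pos _).le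

lemma gd_nonneg {X Y : Type} {n : ℕ} (a : X → Finset (Fin n)) (b : Y → Finset (Fin n))
    (lam : ℕ) (x : X) (y : Y) : 0 ≤ gd a b lam x y := by
  unfold gd
  split_ifs <;> norm_num

lemma gd_le_one {X Y : Type} {n : ℕ} (a : X → Finset (Fin n)) (b : Y → Finset (Fin n))
    (lam : ℕ) (x : X) (y : Y) : gd a b lam x y ≤ 1 := by
  unfold gd
  split_ifs <;> norm_num

/-- positive part of the weight -/
lemma w_pos {X Y : Type} {n : ℕ} (a : X → Finset (Fin n)) (b : Y → Finset (Fin n))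
    (lam : ℕ) (ρ τ s : ℝ) (hτ : 0 ≤ τ) (x : X) (y : Y) (hs : s = -dv a b lam x y) :
    max (τ * gd a b lam x y - er a b lam (2 * ρ) x y) 0 * Real.exp (ρ * s) =
      τ * gd a b lam x y := by
  subst hs
  unfold gd er
  split_ifs with h
  · have : dv a b lam x y = 0 := by unfold dv; rw [h]; ring
    rw [this]
    simp [hτ]
  · have h1 : τ * 0 - Real.exp (2 * ρ * dv a b lam x y) ≤ 0 := by
      have := Real.exp_pos (2 * ρ * dv a b lam x y)
      linarith
    rw [max_eq_right h1]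
    ring

/-- negative part of the weight -/
lemma w_neg {X Y : Type} {n : ℕ} (a : X → Finset (Fin n)) (b : Y → Finset (Fin n))
    (lam : ℕ) (ρ τ s : ℝ) (hτ : 0 ≤ τ) (x : X) (y : Y) (hs : s = -dv a b lam x y) :
    max (-(τ * gd a b lam x y - er a b lam (2 * ρ) x y)) 0 * Real.exp (ρ * s) =
      er a b lam ρ x y := by
  subst hs
  unfold gd er
  split_ifs with h
  · have h1 : -(τ * 1 - 0) ≤ 0 := by linarith
    rw [max_eq_right h1]
    ring
  · have h1 : 0 ≤ -(τ * 0 - Real.exp (2 * ρ * dv a b lam x y)) := by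
      have := Real.exp_pos (2 * ρ * dv a b lam x y)
      linarith
    rw [max_eq_left h1]
    have h2 : -(τ * 0 - Real.exp (2 * ρ * dv a b lam x y)) =
      Real.exp (2 * ρ * dv a b lam x y) := by ring
    rw [h2, ← Real.exp_add]
    congr 1
    ring

/-- the numerical inequality of the tilt -/
lemma num1 {δ β t τ G : ℝ} (hδ : 0 < δ) (hδ' : δ ≤ 1 / 16) (hβ : 0 ≤ β) (ht : 0 < t)
    (hτ : τ = (1 + 4 * δ) * (β + t) - t) (hG : 1 - δ ≤ G) :
    δ * τ ≤ (1 - δ) * (τ * G) - β := by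
  have hτ0 : 0 ≤ τ := by rw [hτ]; nlinarith [mul_pos hδ ht, mul_nonneg hδ.le hβ]
  have h1 : τ * (1 - δ) ≤ τ * G := mul_le_mul_of_nonneg_left hG hτ0
  have h2 : (1 - δ) * (τ * (1 - δ)) ≤ (1 - δ) * (τ * G) :=
    mul_le_mul_of_nonneg_left h1 (by linarith)
  have h3 : (1 - 3 * δ) * τ ≤ (1 - δ) * (τ * (1 - δ)) - δ * τ := by nlinarith [mul_nonneg (sq_nonneg δ) hτ0]
  have h4 : β ≤ (1 - 3 * δ) * τ := by
    rw [hτ]
    have e : (1 - 3 * δ) * ((1 + 4 * δ) * (β + t) - t) - β =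
      δ * (1 - 12 * δ) * β + 4 * δ * (1 - 3 * δ) * t := by ring
    have e1 : 0 ≤ δ * (1 - 12 * δ) * β := by
      apply mul_nonneg _ hβ
      exact mul_nonneg hδ.le (by linarith)
    have e2 : 0 ≤ 4 * δ * (1 - 3 * δ) * t := by
      apply mul_nonneg _ ht.le
      exact mul_nonneg (by linarith) (by linarith)
    linarith
  linarith

lemma exp10 : (1048576 / 49 : ℝ) ≤ Real.exp 10 := by
  have h : Real.exp 10 = Real.exp 1 ^ 10 := by
    rw [← Real.exp_nat_mul]
    norm_num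
  rw [h]
  have h1 : (2.7182818283 : ℝ) ≤ Real.exp 1 := Real.exp_one_gt_d9.le
  calc (1048576 / 49 : ℝ) ≤ 2.7182818283 ^ 10 := by norm_num
    _ ≤ Real.exp 1 ^ 10 := pow_le_pow_left₀ (by norm_num) h1 10

/-- bound for the exponent of the tilt -/
lemma num2 {n : ℕ} {ρ bs bb lam : ℝ} (hn : 1 ≤ n) (hρ : 0 < ρ) (hl : ρ * lam ≤ 1)
    (hbs : 0 ≤ bs) (hbb : bs ≤ bb) :
    2 * ρ * (8 * (√(3 * ((n : ℝ) + 1) * bs) / ρ) + lam) ≤ 3 + 40 * √(n * bb) := by
  have h1 : 2 * ρ * (8 * (√(3 * ((n : ℝ) + 1) * bs) / ρ) + lam) =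
      16 * √(3 * ((n : ℝ) + 1) * bs) + 2 * (ρ * lam) := by
    field_simp
    ring
  rw [h1]
  have hn' : (1 : ℝ) ≤ n := by exact_mod_cast hn
  have h2 : √(3 * ((n : ℝ) + 1) * bs) ≤ √(6 * (n * bb)) := by
    apply Real.sqrt_le_sqrt
    have : ((n : ℝ) + 1) * bs ≤ (2 * n) * bb :=
      mul_le_mul (by linarith) hbb hbs (by linarith)
    nlinarith
  have h3 : √(6 * (n * bb)) = √6 * √(n * bb) := Real.sqrt_mul (by norm_num) _
  have h4 : √6 ≤ 2.5 := by
    rw [Real.sqrt_le_left (by norm_num)]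
    norm_num
  have h5 : √6 * √(n * bb) ≤ 2.5 * √(n * bb) :=
    mul_le_mul_of_nonneg_right h4 (Real.sqrt_nonneg _)
  rw [h3] at h2
  linarith

end STG_

open STG_ in
theorem stg_proof (h1 : Stmt_TLD) (h2 : Stmt_FAC) (h3 : Stmt_CLN) (h4 : Stmt_SQE) :
    Stmt_STG := by
  intro X Y n lam a b A B ρ t K hn hK hρ hρl ht hA hB hb
  have hK1 : (1 : ℝ) ≤ K := by exact_mod_cast hK
  have hK0 : (0 : ℝ) < K := by linarith
  obtain ⟨bb, hbb⟩ : ∃ bb, bb = av A B (er a b lam ρ) + t := ⟨_, rfl⟩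
  rw [← hbb] at hb ⊢
  have hbb0 : 0 < bb := by
    rw [hbb]
    have := av_nonneg (A := A) (B := B) (g := er a b lam ρ) fun x _ y _ => er_nonneg a b lam ρ x y
    linarith
  -- cleaning
  obtain ⟨A₀, hA₀, B₀, hB₀, hA₀n, hB₀n, hi, hii⟩ := h3 X Y (er a b lam ρ) A B (5 * K) t hA hB
    (fun x _ y _ => er_nonneg a b lam ρ x y) (by omega) ht
  obtain ⟨bs, hbs⟩ : ∃ bs, bs = av A₀ B₀ (er a b lam ρ) + t := ⟨_, rfl⟩
  rw [← hbs, ← hbb] at hi
  have hbs0 : 0 < bs := by
    rw [hbs]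
    have := av_nonneg (A := A₀) (B := B₀) (g := er a b lam ρ)
      fun x _ y _ => er_nonneg a b lam ρ x y
    linarith
  have hcA : (0 : ℝ) < A.card := by exact_mod_cast hA.card_pos
  have hcB : (0 : ℝ) < B.card := by exact_mod_cast hB.card_pos
  have hcA₀ : (0 : ℝ) < A₀.card := by exact_mod_cast hA₀n.card_pos
  have hcB₀ : (0 : ℝ) < B₀.card := by exact_mod_cast hB₀n.card_pos
  have hbsb : bs ≤ bb := by
    have h5 : ((A₀.card : ℝ) * B₀.card) ≤ (A.card : ℝ) * B.card := by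
      apply mul_le_mul _ _ hcB₀.le hcA.le
      · exact_mod_cast Finset.card_le_card hA₀
      · exact_mod_cast Finset.card_le_card hB₀
    have h6 : ((A.card : ℝ) * B.card) * bs ^ (5 * K) ≤ ((A.card : ℝ) * B.card) * bb ^ (5 * K) :=
      hi.trans (mul_le_mul_of_nonneg_right h5 (by positivity))
    have h7 := le_of_mul_le_mul_left h6 (mul_pos hcA hcB)
    exact (pow_le_pow_iff_left₀ hbs0.le hbb0.le (by omega)).1 h7
  -- factorisation
  obtain ⟨D, hD⟩ : ∃ D, D = √(3 * ((n : ℝ) + 1) * bs) / ρ := ⟨_, rfl⟩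
  have hn0 : (0 : ℝ) ≤ n := Nat.cast_nonneg n
  have hD0 : 0 < D := by
    rw [hD]
    apply div_pos _ hρ
    apply Real.sqrt_pos.2
    positivity
  obtain ⟨ι, hι, u, v, A₁, hA₁, B₁, hB₁, hA₁c, hB₁c, hu, hv, huv⟩ :=
    h2 X Y n lam a b A₀ B₀ D hA₀n hB₀n hD0 (by
      have h5 : ρ ^ 2 * av A₀ B₀ (fun x y => dv a b lam x y ^ 2) ≤ 3 * bs := by
        rw [← av_smul]
        have h6 : av A₀ B₀ (fun x y => ρ ^ 2 * dv a b lam x y ^ 2) ≤
            av A₀ B₀ (fun x y => 3 * er a b lam ρ x y) :=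
          av_le fun x _ y _ => (h4 X Y n lam a b ρ x y hρ hρl).1
        rw [av_smul A₀ B₀ 3] at h6
        have h7 : av A₀ B₀ (fun x y => er a b lam ρ x y) = bs - t := by
          rw [hbs]
          ring
        rw [h7] at h6
        linarith
      rw [hD, ← Real.sqrt_sq hρ.le, ← Real.sqrt_div (by positivity)]
      apply Real.sqrt_le_sqrt
      rw [le_div_iff₀ (by positivity)]
      have h8 := mul_le_mul_of_nonneg_left h5 (by positivity : 0 ≤ (n : ℝ) + 1)
      linarith)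
  have hcA₁ : (0 : ℝ) < A₁.card := by linarith
  have hcB₁ : (0 : ℝ) < B₁.card := by linarith
  have hA₁n : A₁.Nonempty := by
    rw [← Finset.card_pos]
    exact_mod_cast hcA₁
  have hB₁n : B₁.Nonempty := by
    rw [← Finset.card_pos]
    exact_mod_cast hcB₁
  obtain ⟨β, hβ⟩ : ∃ β, β = av A₁ B₁ (er a b lam ρ) := ⟨_, rfl⟩
  have hβ0 : 0 ≤ β := by
    rw [hβ]
    exact av_nonneg fun x _ y _ => er_nonneg a b lam ρ x y
  have hβt : β + t ≤ (1 + 1 / (K : ℝ)) * bs := by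
    have h5 := hii A₁ hA₁ B₁ hB₁ hA₁c hB₁c
    rw [← hβ, ← hbs] at h5
    refine h5.trans (mul_le_mul_of_nonneg_right ?_ hbs0.le)
    have : 5 / (((5 * K : ℕ) : ℝ) + 1) ≤ 1 / (K : ℝ) := by
      push_cast
      rw [div_le_div_iff₀ (by positivity) hK0]
      linarith
    linarith
  obtain ⟨δ, hδ⟩ : ∃ δ : ℝ, δ = 1 / (16 * K) := ⟨_, rfl⟩
  have hδ0 : 0 < δ := by rw [hδ]; positivity
  have hδK : δ * K = 1 / 16 := by
    rw [hδ]
    field_simp
  have hδ1 : δ ≤ 1 / 16 := by nlinarith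
  have hinv : 1 / (K : ℝ) = 16 * δ := by
    rw [hδ]
    field_simp
  have hβδ : 3 * β ≤ δ := by
    have h5 : β ≤ 2 * bb := by
      have : (1 + 1 / (K : ℝ)) * bs ≤ 2 * bb := by
        apply mul_le_mul _ hbsb hbs0.le (by norm_num)
        have : 1 / (K : ℝ) ≤ 1 := by
          rw [div_le_one hK0]
          exact hK1
        linarith
      linarith
    have h6 : 100 * bb ≤ 16 * δ := by
      rw [← hinv, le_div_iff₀ hK0]
      linarith
    linarith
  obtain ⟨τ, hτ⟩ : ∃ τ, τ = (1 + 4 * δ) * (β + t) - t := ⟨_, rfl⟩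
  have hτ0 : 0 < τ := by
    rw [hτ]
    nlinarith [mul_pos hδ0 ht, mul_nonneg hδ0.le hβ0]
  -- tilt
  obtain ⟨A', hA', B', hB', hT⟩ := h1 X Y ι A₁ B₁ u v
    (fun x y => τ * gd a b lam x y - er a b lam (2 * ρ) x y) (8 * D) lam ρ δ hρ.le
    (Nat.cast_nonneg _) hδ0 (by linarith) hu hv (by
      intro x hx y hy
      rw [huv x (hA₁ hx) y (hB₁ hy)]
      unfold dv
      have : (0 : ℝ) ≤ ((a x ∩ b y).card : ℝ) := Nat.cast_nonneg _
      linarith)
  have hs1 : ∑ x ∈ A₁, ∑ y ∈ B₁, max (τ * gd a b lam x y - er a b lam (2 * ρ) x y) 0 *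
      Real.exp (ρ * ∑ i, u x i * v y i) = τ * S2 A₁ B₁ (gd a b lam) := by
    rw [← S2_smul]
    unfold S2
    apply Finset.sum_congr rfl
    intro x hx
    apply Finset.sum_congr rfl
    intro y hy
    exact w_pos a b lam ρ τ _ hτ0.le x y (huv x (hA₁ hx) y (hB₁ hy))
  have hs2 : ∑ x ∈ A₁, ∑ y ∈ B₁, max (-(τ * gd a b lam x y - er a b lam (2 * ρ) x y)) 0 *
      Real.exp (ρ * ∑ i, u x i * v y i) = S2 A₁ B₁ (er a b lam ρ) := by
    unfold S2
    apply Finset.sum_congr rfl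
    intro x hx
    apply Finset.sum_congr rfl
    intro y hy
    exact w_neg a b lam ρ τ _ hτ0.le x y (huv x (hA₁ hx) y (hB₁ hy))
  have hs3 : ∑ x ∈ A', ∑ y ∈ B', (τ * gd a b lam x y - er a b lam (2 * ρ) x y) =
      τ * S2 A' B' (gd a b lam) - S2 A' B' (er a b lam (2 * ρ)) := by
    rw [← S2_smul]
    unfold S2
    rw [← Finset.sum_sub_distrib]
    apply Finset.sum_congr rfl
    intro x hx
    rw [← Finset.sum_sub_distrib]
  rw [hs1, hs2, hs3] at hT
  obtain ⟨M, hM⟩ : ∃ M, M = (A₁.card : ℝ) * B₁.card := ⟨_, rfl⟩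
  have hM0 : 0 < M := by rw [hM]; exact mul_pos hcA₁ hcB₁
  obtain ⟨E, hE⟩ : ∃ E, E = Real.exp (2 * ρ * (8 * D + lam)) := ⟨_, rfl⟩
  have hE0 : 0 < E := by rw [hE]; exact Real.exp_pos _
  rw [← hE, ← card_mul_av A₁ B₁ (gd a b lam), ← card_mul_av A₁ B₁ (er a b lam ρ), ← hM, ← hβ]
    at hT
  have hG : 1 - δ ≤ av A₁ B₁ (gd a b lam) := by
    have h5 : av A₁ B₁ (fun x y => 3 * er a b lam ρ x y + gd a b lam x y) ≥
        av A₁ B₁ (fun _ _ => (1 : ℝ)) :=
      av_le fun x _ y _ => by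
        have := (h4 X Y n lam a b ρ x y hρ hρl).2
        linarith
    rw [av_add, av_smul] at h5
    have h6 : av A₁ B₁ (fun _ _ => (1 : ℝ)) = 1 := by
      unfold av
      rw [S2_const, one_mul]
      exact div_self (mul_pos hcA₁ hcB₁).ne'
    rw [h6] at h5
    have h7 : av A₁ B₁ (fun x y => er a b lam ρ x y) = β := by rw [hβ]
    have h8 : av A₁ B₁ (fun x y => gd a b lam x y) = av A₁ B₁ (gd a b lam) := rfl
    rw [h7, h8] at h5
    linarith
  have hnum := num1 hδ0 hδ1 hβ0 ht hτ hG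
  have hT2 : δ * τ * M ≤ 4 / δ ^ 2 * E *
      (τ * S2 A' B' (gd a b lam) - S2 A' B' (er a b lam (2 * ρ))) := by
    refine le_trans ?_ hT
    have : δ * τ * M ≤ ((1 - δ) * (τ * av A₁ B₁ (gd a b lam)) - β) * M :=
      mul_le_mul_of_nonneg_right hnum hM0.le
    refine this.trans (le_of_eq ?_)
    ring
  have hc0 : 0 < 4 / δ ^ 2 * E := by positivity
  have hW0 : 0 < τ * S2 A' B' (gd a b lam) - S2 A' B' (er a b lam (2 * ρ)) := by
    have h5 : 0 < δ * τ * M := by positivity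
    exact (mul_pos_iff_of_pos_left hc0).1 (lt_of_lt_of_le h5 hT2)
  have hSe : 0 ≤ S2 A' B' (er a b lam (2 * ρ)) := S2_nonneg fun x _ y _ => er_nonneg _ _ _ _ _ _
  have hSg : S2 A' B' (gd a b lam) ≤ (A'.card : ℝ) * B'.card := by
    have := S2_le (A := A') (B := B') (g := gd a b lam) (h := fun _ _ => (1 : ℝ))
      fun x _ y _ => gd_le_one a b lam x y
    rw [S2_const, one_mul] at this
    exact this
  have hSg0 : 0 < S2 A' B' (gd a b lam) := by
    have : 0 < τ * S2 A' B' (gd a b lam) := by linarith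
    exact (mul_pos_iff_of_pos_left hτ0).1 this
  have hM' : 0 < (A'.card : ℝ) * B'.card := lt_of_lt_of_le hSg0 hSg
  have hA'n : A'.Nonempty := by
    rw [Finset.nonempty_iff_ne_empty]
    rintro rfl
    simp at hM'
  have hB'n : B'.Nonempty := by
    rw [Finset.nonempty_iff_ne_empty]
    rintro rfl
    simp at hM'
  have hav : av A' B' (er a b lam (2 * ρ)) ≤ τ := by
    unfold av
    rw [div_le_iff₀ hM']
    have := mul_le_mul_of_nonneg_left hSg hτ0.le
    linarith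
  have hsz : δ ^ 3 / 4 * M ≤ E * ((A'.card : ℝ) * B'.card) := by
    have h5 : τ * S2 A' B' (gd a b lam) - S2 A' B' (er a b lam (2 * ρ)) ≤
        τ * ((A'.card : ℝ) * B'.card) := by
      have := mul_le_mul_of_nonneg_left hSg hτ0.le
      linarith
    have h6 : δ * τ * M ≤ 4 / δ ^ 2 * E * (τ * ((A'.card : ℝ) * B'.card)) :=
      hT2.trans (mul_le_mul_of_nonneg_left h5 hc0.le)
    have h7 : (4 * τ / δ ^ 2) * (δ ^ 3 / 4 * M) ≤
        (4 * τ / δ ^ 2) * (E * ((A'.card : ℝ) * B'.card)) := by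
      refine le_trans (le_of_eq ?_) (h6.trans (le_of_eq ?_))
      · field_simp
      · ring
    exact le_of_mul_le_mul_left h7 (by positivity)
  obtain ⟨b', hb'⟩ : ∃ b', b' = av A' B' (er a b lam (2 * ρ)) + t := ⟨_, rfl⟩
  have hb'0 : 0 ≤ b' := by
    rw [hb']
    have := av_nonneg (A := A') (B := B') (g := er a b lam (2 * ρ))
      fun x _ y _ => er_nonneg a b lam (2 * ρ) x y
    linarith
  have hb's : b' ≤ (1 + 2 / (K : ℝ)) * bs := by
    have h5 : b' ≤ (1 + 4 * δ) * (β + t) := by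
      rw [hb']
      linarith
    have h6 : (1 + 4 * δ) * (β + t) ≤ (1 + 4 * δ) * ((1 + 1 / (K : ℝ)) * bs) :=
      mul_le_mul_of_nonneg_left hβt (by linarith)
    refine h5.trans (h6.trans ?_)
    rw [← mul_assoc]
    apply mul_le_mul_of_nonneg_right _ hbs0.le
    have h7 : 2 / (K : ℝ) = 32 * δ := by
      have : 2 / (K : ℝ) = 2 * (1 / K) := by ring
      rw [this, hinv]
      ring
    rw [h7, hinv]
    nlinarith
  refine ⟨A', hA'.trans (hA₁.trans hA₀), B', hB'.trans (hB₁.trans hB₀), hA'n, hB'n, ?_, ?_⟩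
  · rw [← hb']
    exact hb's.trans (mul_le_mul_of_nonneg_left hbsb (by positivity))
  · rw [← hb']
    have h5 : b' ^ (5 * K) ≤ Real.exp 10 * bs ^ (5 * K) := by
      calc b' ^ (5 * K) ≤ ((1 + 2 / (K : ℝ)) * bs) ^ (5 * K) := pow_le_pow_left₀ hb'0 hb's _
        _ = (1 + 2 / (K : ℝ)) ^ (5 * K) * bs ^ (5 * K) := mul_pow _ _ _
        _ ≤ Real.exp 10 * bs ^ (5 * K) := by
          apply mul_le_mul_of_nonneg_right _ (by positivity)
          have h6 : 1 + 2 / (K : ℝ) ≤ Real.exp (2 / K) := by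
            have := Real.add_one_le_exp (2 / (K : ℝ))
            linarith
          calc (1 + 2 / (K : ℝ)) ^ (5 * K) ≤ Real.exp (2 / K) ^ (5 * K) :=
                pow_le_pow_left₀ (by positivity) h6 _
            _ = Real.exp 10 := by
              rw [← Real.exp_nat_mul]
              congr 1
              push_cast
              field_simp
              norm_num
    -- the chain of sizes
    have h6 : 49 / 64 * ((A₀.card : ℝ) * B₀.card) ≤ M := by
      rw [hM]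
      have h7 : (7 / 8 * (A₀.card : ℝ)) * (7 / 8 * B₀.card) ≤ (A₁.card : ℝ) * B₁.card :=
        mul_le_mul (by linarith) (by linarith) (by positivity) hcA₁.le
      linarith
    have h8 : δ ^ 3 = 1 / (4096 * (K : ℝ) ^ 3) := by
      rw [hδ, div_pow, mul_pow]
      norm_num
    have h9 : (49 : ℝ) / 1048576 * ((A₀.card : ℝ) * B₀.card) ≤
        (K : ℝ) ^ 3 * (E * ((A'.card : ℝ) * B'.card)) := by
      have h10 : δ ^ 3 / 4 * (49 / 64 * ((A₀.card : ℝ) * B₀.card)) ≤ δ ^ 3 / 4 * M :=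
        mul_le_mul_of_nonneg_left h6 (by positivity)
      have h11 := h10.trans hsz
      have h12 := mul_le_mul_of_nonneg_left h11 (by positivity : 0 ≤ (K : ℝ) ^ 3)
      refine le_trans (le_of_eq ?_) h12
      rw [h8]
      field_simp
      norm_num
    have hexpo : E ≤ Real.exp (3 + 40 * √(n * bb)) := by
      rw [hE, hD]
      apply Real.exp_le_exp.2
      exact num2 hn hρ hρl hbs0.le hbsb
    have h13 : ((A.card : ℝ) * B.card) * b' ^ (5 * K) ≤
        Real.exp 10 * (((A₀.card : ℝ) * B₀.card) * bb ^ (5 * K)) := by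
      calc ((A.card : ℝ) * B.card) * b' ^ (5 * K) ≤
            ((A.card : ℝ) * B.card) * (Real.exp 10 * bs ^ (5 * K)) :=
            mul_le_mul_of_nonneg_left h5 (by positivity)
        _ = Real.exp 10 * (((A.card : ℝ) * B.card) * bs ^ (5 * K)) := by ring
        _ ≤ _ := mul_le_mul_of_nonneg_left hi (Real.exp_pos _).le
    have h14 : ((A₀.card : ℝ) * B₀.card) ≤
        Real.exp 10 * ((K : ℝ) ^ 3 * (Real.exp (3 + 40 * √(n * bb)) *
          ((A'.card : ℝ) * B'.card))) := by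
      have h15 : ((A₀.card : ℝ) * B₀.card) ≤
          1048576 / 49 * ((K : ℝ) ^ 3 * (E * ((A'.card : ℝ) * B'.card))) := by linarith
      refine h15.trans ?_
      apply mul_le_mul exp10 _ (by positivity) (Real.exp_pos _).le
      apply mul_le_mul_of_nonneg_left _ (by positivity)
      exact mul_le_mul_of_nonneg_right hexpo hM'.le
    have h16 : ((A.card : ℝ) * B.card) * b' ^ (5 * K) ≤
        Real.exp (23 + 40 * √(n * bb)) * (K : ℝ) ^ 3 *
          (((A'.card : ℝ) * B'.card) * bb ^ (5 * K)) := by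
      have h17 : ((A₀.card : ℝ) * B₀.card) * bb ^ (5 * K) ≤
          Real.exp 10 * ((K : ℝ) ^ 3 * (Real.exp (3 + 40 * √(n * bb)) *
          ((A'.card : ℝ) * B'.card))) * bb ^ (5 * K) :=
        mul_le_mul_of_nonneg_right h14 (by positivity)
      have h18 := h13.trans (mul_le_mul_of_nonneg_left h17 (Real.exp_pos 10).le)
      refine h18.trans (le_of_eq ?_)
      have h19 : Real.exp (23 + 40 * √(n * bb)) =
          Real.exp 10 * (Real.exp 10 * Real.exp (3 + 40 * √(n * bb))) := by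
        rw [← Real.exp_add, ← Real.exp_add]
        congr 1
        ring
      rw [h19]
      ring
    have h20 : Real.exp (-(23 + 40 * √(n * bb))) / (K : ℝ) ^ 3 *
          ((A.card : ℝ) * B.card) * b' ^ (5 * K) =
        Real.exp (-(23 + 40 * √(n * bb))) / (K : ℝ) ^ 3 *
          (((A.card : ℝ) * B.card) * b' ^ (5 * K)) := by ring
    rw [h20]
    have h21 := mul_le_mul_of_nonneg_left h16
      (by positivity : 0 ≤ Real.exp (-(23 + 40 * √(n * bb))) / (K : ℝ) ^ 3)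
    refine h21.trans (le_of_eq ?_)
    rw [Real.exp_neg]
    field_simp

end Pool.Agent.LSB
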