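import Pool.Agent.LSB.Defs

/-!
Exact statements of the modules of squad LSB. Module `XXX` is the file `Pool/Agent/LSB/XXX.lean`,
with final theorem `xxx_proof : Stmt_XXX` (hypotheses = the column `uses`, in this order).
-/

namespace Pool.Agent.LSB

open Finset Pool.Agent.LIS

/-- Exponential tilting by random Gaussian rectangles, precise version. -/
def Stmt_TLD : Prop :=
  ∀ (X Y ι : Type) [Fintype ι] (A : Finset X) (B : Finset Y) (u : X → ι → ℝ) (v : Y → ι → ℝ)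
    (W : X → Y → ℝ) (D R L δ : ℝ),
    0 ≤ L → 0 ≤ R → 0 < δ → δ ≤ 1 →
    (∀ x ∈ A, ∑ i, u x i ^ 2 ≤ D) → (∀ y ∈ B, ∑ i, v y i ^ 2 ≤ D) →
    (∀ x ∈ A, ∀ y ∈ B, ∑ i, u x i * v y i ≤ R) →
    ∃ A' ⊆ A, ∃ B' ⊆ B,
      (1 - δ) * (∑ x ∈ A, ∑ y ∈ B, max (W x y) 0 * Real.exp (L * ∑ i, u x i * v y i)) -
          (∑ x ∈ A, ∑ y ∈ B, max (-W x y) 0 * Real.exp (L * ∑ i, u x i * v y i)) ≤
        4 / δ ^ 2 * Real.exp (2 * L * (D + R)) * ∑ x ∈ A', ∑ y ∈ B', W x y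

/-- Factorisation of the deviation matrix; most rows and columns have small norm. -/
def Stmt_FAC : Prop :=
  ∀ (X Y : Type) (n lam : ℕ) (a : X → Finset (Fin n)) (b : Y → Finset (Fin n))
    (A : Finset X) (B : Finset Y) (D : ℝ),
    A.Nonempty → B.Nonempty → 0 < D →
    √(((n : ℝ) + 1) * av A B (fun x y => dv a b lam x y ^ 2)) ≤ D →
    ∃ (ι : Type) (_ : Fintype ι) (u : X → ι → ℝ) (v : Y → ι → ℝ),
      ∃ A₁ ⊆ A, ∃ B₁ ⊆ B,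
      7 * (A.card : ℝ) ≤ 8 * A₁.card ∧ 7 * (B.card : ℝ) ≤ 8 * B₁.card ∧
      (∀ x ∈ A₁, ∑ i, u x i ^ 2 ≤ 8 * D) ∧ (∀ y ∈ B₁, ∑ i, v y i ^ 2 ≤ 8 * D) ∧
      (∀ x ∈ A, ∀ y ∈ B, ∑ i, u x i * v y i = -dv a b lam x y)

/-- Cleaning: a subrectangle on which the average of `g` is stable. -/
def Stmt_CLN : Prop :=
  ∀ (X Y : Type) (g : X → Y → ℝ) (A : Finset X) (B : Finset Y) (κ : ℕ) (t : ℝ),
    A.Nonempty → B.Nonempty → (∀ x ∈ A, ∀ y ∈ B, 0 ≤ g x y) → 1 ≤ κ → 0 < t →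
    ∃ A₀ ⊆ A, ∃ B₀ ⊆ B, A₀.Nonempty ∧ B₀.Nonempty ∧
      ((A.card : ℝ) * B.card) * (av A₀ B₀ g + t) ^ κ ≤
        ((A₀.card : ℝ) * B₀.card) * (av A B g + t) ^ κ ∧
      (∀ A₁ ⊆ A₀, ∀ B₁ ⊆ B₀, 7 * (A₀.card : ℝ) ≤ 8 * A₁.card → 7 * (B₀.card : ℝ) ≤ 8 * B₁.card →
        av A₁ B₁ g + t ≤ (1 + 5 / ((κ : ℝ) + 1)) * (av A₀ B₀ g + t))

/-- The square of the deviation is controlled by the exponential weight. -/
def Stmt_SQE : Prop :=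
  ∀ (X Y : Type) (n lam : ℕ) (a : X → Finset (Fin n)) (b : Y → Finset (Fin n))
    (ρ : ℝ) (x : X) (y : Y), 0 < ρ → ρ * lam ≤ 1 →
    ρ ^ 2 * dv a b lam x y ^ 2 ≤ 3 * er a b lam ρ x y ∧
      1 - gd a b lam x y ≤ 3 * er a b lam ρ x y

/-- One stage: the scale `ρ` is doubled. -/
def Stmt_STG : Prop :=
  ∀ (X Y : Type) (n lam : ℕ) (a : X → Finset (Fin n)) (b : Y → Finset (Fin n))
    (A : Finset X) (B : Finset Y) (ρ t : ℝ) (K : ℕ),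
    1 ≤ n → 1 ≤ K → 0 < ρ → ρ * lam ≤ 1 → 0 < t → A.Nonempty → B.Nonempty →
    100 * K * (av A B (er a b lam ρ) + t) ≤ 1 →
    ∃ A' ⊆ A, ∃ B' ⊆ B, A'.Nonempty ∧ B'.Nonempty ∧
      av A' B' (er a b lam (2 * ρ)) + t ≤ (1 + 2 / (K : ℝ)) * (av A B (er a b lam ρ) + t) ∧
      Real.exp (-(23 + 40 * √(n * (av A B (er a b lam ρ) + t)))) / (K : ℝ) ^ 3 *
          ((A.card : ℝ) * B.card) * (av A' B' (er a b lam (2 * ρ)) + t) ^ (5 * K) ≤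
        ((A'.card : ℝ) * B'.card) * (av A B (er a b lam ρ) + t) ^ (5 * K)

/-- All stages. -/
def Stmt_ITR : Prop :=
  ∀ (X Y : Type) (n lam : ℕ) (a : X → Finset (Fin n)) (b : Y → Finset (Fin n))
    (A : Finset X) (B : Finset Y) (ρ t β : ℝ) (K J : ℕ),
    1 ≤ n → 1 ≤ K → J ≤ K → 0 < ρ → 2 ^ J * ρ * lam ≤ 1 → 0 < t → A.Nonempty → B.Nonempty →
    av A B (er a b lam ρ) + t ≤ β → 800 * K * β ≤ 1 →
    ∃ A' ⊆ A, ∃ B' ⊆ B, A'.Nonempty ∧ B'.Nonempty ∧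
      av A' B' (er a b lam (2 ^ J * ρ)) ≤ 8 * β ∧
      (t / β) ^ (5 * K) * (Real.exp (-(23 + 120 * √(n * β))) / (K : ℝ) ^ 3) ^ J *
        ((A.card : ℝ) * B.card) ≤ (A'.card : ℝ) * B'.card

/-- The last tilt. -/
def Stmt_LST : Prop :=
  ∀ (X Y : Type) (n lam : ℕ) (a : X → Finset (Fin n)) (b : Y → Finset (Fin n))
    (A : Finset X) (B : Finset Y) (ρ β : ℝ),
    1 ≤ n → 1 ≤ lam → ρ * lam ≤ 1 → 1 ≤ 2 * (ρ * lam) → A.Nonempty → B.Nonempty →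
    0 < β → β ≤ 1 / 25 → av A B (er a b lam ρ) ≤ β →
    ∃ A' ⊆ A, ∃ B' ⊆ B,
      S2 A' B' (bw a b lam) ≤ 10 * β * S2 A' B' (gd a b lam) ∧
      Real.exp (-(6 + Real.log (lam + 1) * (80 * lam * √(n * β) + 2 * lam))) *
        ((A.card : ℝ) * B.card) ≤ S2 A' B' (gd a b lam)

/-- Choice of the common intersection. -/
def Stmt_CHO : Prop :=
  ∀ (X Y : Type) (n lam : ℕ) (a : X → Finset (Fin n)) (b : Y → Finset (Fin n))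
    (A : Finset X) (B : Finset Y) (τ : ℝ),
    1 ≤ n → 0 < τ → τ ≤ 1 / 768 → 0 < S2 A B (gd a b lam) →
    S2 A B (bw a b lam) ≤ τ * S2 A B (gd a b lam) →
    ∃ A' ⊆ A, ∃ B' ⊆ B, ∃ I : Finset (Fin n), I.card = lam ∧
      (∀ x ∈ A', ∀ y ∈ B', a x ∩ b y = I) ∧
      3 / 4 * Real.exp (-(3072 * √(n * (2 * τ)))) *
        (S2 A B (gd a b lam) / (2 * (n.choose lam : ℕ))) ≤ (A'.card : ℝ) * B'.card

open scoped Classical in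
/-- Sampling: a relation without large triangular patterns contains a full rectangle. -/
def Stmt_WIN : Prop :=
  ∀ (X Y : Type) (R : X → Y → Prop) (A : Finset X) (B : Finset Y) (r : ℕ) (z : ℝ),
    A.Nonempty → B.Nonempty → 1 ≤ r → 0 < z → z ≤ 1 →
    z * ((A.card : ℝ) * B.card) ≤ S2 A B (fun x y => if R x y then (1 : ℝ) else 0) →
    (∀ (m : ℕ) (x : Fin m → X) (y : Fin m → Y), (∀ i, x i ∈ A) → (∀ i, y i ∈ B) →
      (∀ i, ¬ R (x i) (y i)) → (∀ i j, i < j → R (x j) (y i)) → m ≤ r) →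
    ∃ A' ⊆ A, ∃ B' ⊆ B, (∀ x ∈ A', ∀ y ∈ B', R x y) ∧
      1 / 2 * z ^ (2 * r) * ((A.card : ℝ) * B.card) ≤ (A'.card : ℝ) * B'.card

/-- Triangular patterns have size at most `n + 1`. -/
def Stmt_TRI : Prop :=
  ∀ (n lam m : ℕ) (a b : Fin m → Finset (Fin n)),
    (∀ i, (a i ∩ b i).card ≠ lam) → (∀ i j, i < j → (a j ∩ b i).card = lam) → m ≤ n + 1

/-- Very few bad pairs. -/
def Stmt_RKF : Prop :=
  ∀ (X Y : Type) (n lam : ℕ) (a : X → Finset (Fin n)) (b : Y → Finset (Fin n))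
    (A : Finset X) (B : Finset Y) (η : ℝ),
    0 ≤ η → η * ((n : ℝ) + 1) ≤ 1 / 4 →
    (1 - η) * ((A.card : ℝ) * B.card) ≤ S2 A B (gd a b lam) →
    ∃ A' ⊆ A, ∃ B' ⊆ B, (∀ x ∈ A', ∀ y ∈ B', (a x ∩ b y).card = lam) ∧
      Real.exp (-(4 * √(η * (n + 1)))) * ((A.card : ℝ) * B.card) ≤ (A'.card : ℝ) * B'.card

end Pool.Agent.LSB
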