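import Pool.Agent.LSB.Stmts
import Pool.Agent.BddInt.Tilt

/-!
Module TLD: exponential tilting by random Gaussian rectangles, precise version.
-/

set_option maxHeartbeats 4000000

namespace Pool.Agent.LSB

open Finset MeasureTheory ProbabilityTheory Pool.Agent.LIS
open Pool.Agent.BddInt (gm eL eL_integral eL_integrable eL_mul eL_pos eL_cont vertex min_mul_lower min_mul_upper)

noncomputable section

theorem tld_proof : Stmt_TLD := by
  intro X Y ι _ A B u v W D R L δ hL hR hδ hδ1 hu hv huv
  classical
  set q : ℝ := √L with hq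
  have hqq : q * q = L := Real.mul_self_sqrt hL
  set S : ℝ := 2 / δ * Real.exp (L * (3 * D / 2 + R)) with hS
  have hSpos : 0 < S := by positivity
  set α : X → (ι → ℝ) → ℝ := fun x g => eL (L * (D - ∑ i, u x i ^ 2) / 2) (fun i => q * u x i) g
    with hα
  set β : Y → (ι → ℝ) → ℝ := fun y g => eL (L * (D - ∑ i, v y i ^ 2) / 2) (fun i => q * v y i) g
    with hβ
  have hαp : ∀ x g, 0 < α x g := fun x g => eL_pos _ _ _
  have hβp : ∀ y g, 0 < β y g := fun y g => eL_pos _ _ _
  -- the second factor
  set m : X → Y → (ι → ℝ) → ℝ := fun x y g => min (α x g) S * min (β y g) S with hm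
  have hcont : ∀ x y, Continuous (m x y) := by
    intro x y
    exact ((eL_cont _ _).min continuous_const).mul ((eL_cont _ _).min continuous_const)
  have i_ab : ∀ x y, Integrable (fun g => α x g * β y g) (gm ι) := by
    intro x y
    simp only [hα, hβ, eL_mul]
    exact eL_integrable _ _
  have i_aab : ∀ x y, Integrable (fun g => α x g * α x g * β y g) (gm ι) := by
    intro x y
    simp only [hα, hβ, eL_mul]
    exact eL_integrable _ _
  have i_abb : ∀ x y, Integrable (fun g => α x g * β y g * β y g) (gm ι) := by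
    intro x y
    simp only [hα, hβ, eL_mul]
    exact eL_integrable _ _
  have i_m : ∀ x y, Integrable (m x y) (gm ι) := by
    intro x y
    refine Integrable.mono' (i_ab x y) (hcont x y).aestronglyMeasurable ?_
    refine Filter.Eventually.of_forall fun g => ?_
    have h1 : 0 ≤ m x y g := mul_nonneg (le_min (hαp x g).le hSpos.le) (le_min (hβp y g).le hSpos.le)
    rw [Real.norm_of_nonneg h1]
    exact min_mul_upper (hαp x g).le (hβp y g).le hSpos
  have e_ab : ∀ x y, ∫ g, α x g * β y g ∂(gm ι)
      = Real.exp (L * D) * Real.exp (L * ∑ i, u x i * v y i) := by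
    intro x y
    simp only [hα, hβ, eL_mul]
    rw [eL_integral, ← Real.exp_add]
    congr 1
    have : ∑ i, (q * u x i + q * v y i) ^ 2
        = L * (∑ i, u x i ^ 2 + 2 * ∑ i, u x i * v y i + ∑ i, v y i ^ 2) := by
      rw [Finset.mul_sum, ← Finset.sum_add_distrib, ← Finset.sum_add_distrib, Finset.mul_sum]
      apply Finset.sum_congr rfl
      intro i _
      rw [← hqq]; ring
    rw [this]
    ring
  have e_aab : ∀ x ∈ A, ∀ y ∈ B, ∫ g, α x g * α x g * β y g ∂(gm ι)
      ≤ δ / 2 * S * (Real.exp (L * D) * Real.exp (L * ∑ i, u x i * v y i)) := by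
    intro x hx y hy
    simp only [hα, hβ, eL_mul]
    rw [eL_integral, hS, ← Real.exp_add]
    have e8 : δ / 2 * (2 / δ * Real.exp (L * (3 * D / 2 + R))) = Real.exp (L * (3 * D / 2 + R)) := by
      field_simp
    rw [e8, ← Real.exp_add]
    apply Real.exp_le_exp.2
    have : ∑ i, (q * u x i + q * u x i + q * v y i) ^ 2
        = L * (4 * ∑ i, u x i ^ 2 + 4 * ∑ i, u x i * v y i + ∑ i, v y i ^ 2) := by
      rw [Finset.mul_sum, Finset.mul_sum, ← Finset.sum_add_distrib, ← Finset.sum_add_distrib,
        Finset.mul_sum]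
      apply Finset.sum_congr rfl
      intro i _
      rw [← hqq]; ring
    rw [this]
    have h1 := hu x hx
    have h2 := huv x hx y hy
    nlinarith [mul_le_mul_of_nonneg_left h1 hL, mul_le_mul_of_nonneg_left h2 hL]
  have e_abb : ∀ x ∈ A, ∀ y ∈ B, ∫ g, α x g * β y g * β y g ∂(gm ι)
      ≤ δ / 2 * S * (Real.exp (L * D) * Real.exp (L * ∑ i, u x i * v y i)) := by
    intro x hx y hy
    simp only [hα, hβ, eL_mul]
    rw [eL_integral, hS, ← Real.exp_add]
    have e8 : δ / 2 * (2 / δ * Real.exp (L * (3 * D / 2 + R))) = Real.exp (L * (3 * D / 2 + R)) := by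
      field_simp
    rw [e8, ← Real.exp_add]
    apply Real.exp_le_exp.2
    have : ∑ i, (q * u x i + q * v y i + q * v y i) ^ 2
        = L * (∑ i, u x i ^ 2 + 4 * ∑ i, u x i * v y i + 4 * ∑ i, v y i ^ 2) := by
      rw [Finset.mul_sum, Finset.mul_sum, ← Finset.sum_add_distrib, ← Finset.sum_add_distrib,
        Finset.mul_sum]
      apply Finset.sum_congr rfl
      intro i _
      rw [← hqq]; ring
    rw [this]
    have h1 := hv y hy
    have h2 := huv x hx y hy
    nlinarith [mul_le_mul_of_nonneg_left h1 hL, mul_le_mul_of_nonneg_left h2 hL]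
  -- bounds for the truncated products
  have m_low : ∀ x ∈ A, ∀ y ∈ B,
      (1 - δ) * (Real.exp (L * D) * Real.exp (L * ∑ i, u x i * v y i)) ≤ ∫ g, m x y g ∂(gm ι) := by
    intro x hx y hy
    have h1 : ∫ g, (α x g * β y g - α x g * α x g * β y g / S - α x g * β y g * β y g / S) ∂(gm ι)
        ≤ ∫ g, m x y g ∂(gm ι) := by
      apply integral_mono (((i_ab x y).sub ((i_aab x y).div_const S)).sub
        ((i_abb x y).div_const S)) (i_m x y)
      intro g
      exact min_mul_lower (hαp x g).le (hβp y g).le hSpos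
    have h2 : ∫ g, (α x g * β y g - α x g * α x g * β y g / S - α x g * β y g * β y g / S) ∂(gm ι)
        = ∫ g, α x g * β y g ∂(gm ι) - (∫ g, α x g * α x g * β y g ∂(gm ι)) / S
          - (∫ g, α x g * β y g * β y g ∂(gm ι)) / S := by
      have i1 : Integrable (fun g => α x g * β y g - α x g * α x g * β y g / S) (gm ι) :=
        (i_ab x y).sub ((i_aab x y).div_const S)
      rw [integral_sub i1 ((i_abb x y).div_const S),
        integral_sub (i_ab x y) ((i_aab x y).div_const S), integral_div, integral_div]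
    rw [h2, e_ab] at h1
    have h3 := div_le_div_of_nonneg_right (e_aab x hx y hy) hSpos.le
    have h4 := div_le_div_of_nonneg_right (e_abb x hx y hy) hSpos.le
    set E := Real.exp (L * D) * Real.exp (L * ∑ i, u x i * v y i) with hE
    have h5 : δ / 2 * S * E / S = δ / 2 * E := by
      rw [mul_right_comm, mul_div_assoc, div_self hSpos.ne', mul_one]
    rw [h5] at h3 h4
    linarith
  have m_up : ∀ x y, ∫ g, m x y g ∂(gm ι)
      ≤ Real.exp (L * D) * Real.exp (L * ∑ i, u x i * v y i) := by
    intro x y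
    rw [← e_ab]
    apply integral_mono (i_m x y) (i_ab x y)
    intro g
    exact min_mul_upper (hαp x g).le (hβp y g).le hSpos
  -- the total
  have i_tot : Integrable (fun g => ∑ x ∈ A, ∑ y ∈ B, W x y * m x y g) (gm ι) := by
    apply integrable_finsetSum
    intro x _
    apply integrable_finsetSum
    intro y _
    exact (i_m x y).const_mul _
  obtain ⟨g, hg⟩ := exists_integral_le i_tot
  have e_tot : ∫ g, ∑ x ∈ A, ∑ y ∈ B, W x y * m x y g ∂(gm ι)
      = ∑ x ∈ A, ∑ y ∈ B, W x y * ∫ g, m x y g ∂(gm ι) := by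
    rw [integral_finsetSum]
    · apply Finset.sum_congr rfl
      intro x _
      rw [integral_finsetSum]
      · apply Finset.sum_congr rfl
        intro y _
        rw [integral_const_mul]
      · intro y _
        exact (i_m x y).const_mul _
    · intro x _
      apply integrable_finsetSum
      intro y _
      exact (i_m x y).const_mul _
  have h_low : Real.exp (L * D) *
      ((1 - δ) * (∑ x ∈ A, ∑ y ∈ B, max (W x y) 0 * Real.exp (L * ∑ i, u x i * v y i)) -
          (∑ x ∈ A, ∑ y ∈ B, max (-W x y) 0 * Real.exp (L * ∑ i, u x i * v y i)))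
      ≤ ∑ x ∈ A, ∑ y ∈ B, W x y * ∫ g, m x y g ∂(gm ι) := by
    rw [Finset.mul_sum, ← Finset.sum_sub_distrib, Finset.mul_sum]
    apply Finset.sum_le_sum
    intro x hx
    rw [Finset.mul_sum, ← Finset.sum_sub_distrib, Finset.mul_sum]
    apply Finset.sum_le_sum
    intro y hy
    have h1 := m_low x hx y hy
    have h2 := m_up x y
    rcases le_total 0 (W x y) with h | h
    · rw [max_eq_left h, max_eq_right (by linarith)]
      have := mul_le_mul_of_nonneg_left h1 h
      calc Real.exp (L * D) * ((1 - δ) * (W x y * Real.exp (L * ∑ i, u x i * v y i))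
            - 0 * Real.exp (L * ∑ i, u x i * v y i))
          = W x y * ((1 - δ) * (Real.exp (L * D) * Real.exp (L * ∑ i, u x i * v y i))) := by ring
        _ ≤ _ := this
    · rw [max_eq_right h, max_eq_left (by linarith)]
      have := mul_le_mul_of_nonneg_left h2 (neg_nonneg.2 h)
      calc Real.exp (L * D) * ((1 - δ) * (0 * Real.exp (L * ∑ i, u x i * v y i))
            - -W x y * Real.exp (L * ∑ i, u x i * v y i))
          = -(-W x y * (Real.exp (L * D) * Real.exp (L * ∑ i, u x i * v y i))) := by ring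
        _ ≤ -(-W x y * ∫ g, m x y g ∂(gm ι)) := neg_le_neg this
        _ = _ := by ring
  obtain ⟨A', hA', B', hB', hv'⟩ := vertex A B W (fun x => min (α x g) S) (fun y => min (β y g) S) S
    hSpos.le (fun x => ⟨le_min (hαp x g).le hSpos.le, min_le_right _ _⟩)
    (fun y => ⟨le_min (hβp y g).le hSpos.le, min_le_right _ _⟩)
  refine ⟨A', hA', B', hB', ?_⟩
  rw [e_tot] at hg
  have h_all := (h_low.trans hg).trans hv'
  have hS2 : S ^ 2 = Real.exp (L * D) * (4 / δ ^ 2 * Real.exp (2 * L * (D + R))) := by
    rw [hS, mul_pow, ← Real.exp_nat_mul]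
    have : Real.exp (L * D) * (4 / δ ^ 2 * Real.exp (2 * L * (D + R)))
        = 4 / δ ^ 2 * Real.exp (L * D + 2 * L * (D + R)) := by rw [Real.exp_add]; ring
    rw [this]
    have h9 : (2 / δ) ^ 2 = 4 / δ ^ 2 := by ring
    rw [h9]
    congr 2
    push_cast
    ring
  rw [hS2, mul_assoc] at h_all
  exact le_of_mul_le_mul_left h_all (Real.exp_pos _)

end

end Pool.Agent.LSB
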