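import Pool.Agent.LSB.Stmts

/-!
# Squad LSB, module TRI: triangular (skew) set pairs and rank
-/

namespace Pool.Agent.LSB

open Finset Pool.Agent.LIS

theorem tri_proof : Stmt_TRI := by
  intro n lam m a b h1 h2
  classical
  let U : Matrix (Fin m) (Option (Fin n)) ℚ := fun j o =>
    match o with
    | none => 1
    | some e => if e ∈ a j then 1 else 0
  let V : Matrix (Option (Fin n)) (Fin m) ℚ := fun o i =>
    match o with
    | none => -(lam : ℚ)
    | some e => if e ∈ b i then 1 else 0
  have hG : ∀ j i, (U * V) j i = ((a j ∩ b i).card : ℚ) - lam := by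
    intro j i
    rw [Matrix.mul_apply, Fintype.sum_option]
    have h3 : ∑ e : Fin n, U j (some e) * V (some e) i = ((a j ∩ b i).card : ℚ) := by
      have h4 : ∀ e : Fin n, U j (some e) * V (some e) i = if e ∈ a j ∩ b i then 1 else 0 := by
        intro e
        show (if e ∈ a j then (1 : ℚ) else 0) * (if e ∈ b i then 1 else 0) = _
        by_cases hA : e ∈ a j <;> by_cases hB : e ∈ b i <;> simp [hA, hB]
      rw [Finset.sum_congr rfl (fun e _ => h4 e), Finset.sum_ite_mem, Finset.univ_inter]
      simp
    rw [h3]
    show (1 : ℚ) * (-(lam : ℚ)) + _ = _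
    ring
  have hT : (U * V).BlockTriangular id := by
    intro j i hij
    rw [hG]
    have := h2 i j hij
    rw [this]
    simp
  have hdet : (U * V).det ≠ 0 := by
    rw [Matrix.det_of_upperTriangular hT, Finset.prod_ne_zero_iff]
    intro i _
    rw [hG]
    intro h
    apply h1 i
    have h5 : ((a i ∩ b i).card : ℚ) = lam := by linarith
    exact_mod_cast h5
  have hrank : (U * V).rank = m := by
    rw [Matrix.rank_of_isUnit _ ((Matrix.isUnit_iff_isUnit_det _).2 (isUnit_iff_ne_zero.2 hdet))]
    simp
  have h6 : (U * V).rank ≤ U.rank := Matrix.rank_mul_le_left U V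
  have h7 : U.rank ≤ Fintype.card (Option (Fin n)) := Matrix.rank_le_card_width U
  rw [hrank] at h6
  simp only [Fintype.card_option, Fintype.card_fin] at h7
  omega

end Pool.Agent.LSB
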