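import Pool.Agent.LSB.Stmts

/-!
# WIN: sampling, a relation without large triangular patterns contains a full rectangle
-/

set_option autoImplicit false

namespace Pool.Agent.LSB

open Finset Pool.Agent.LIS

namespace WIN_

variable {X Y : Type} (R : X → Y → Prop) (A : Finset X) (B : Finset Y) {k : ℕ}

open scoped Classical in
/-- rows compatible with the first values -/
noncomputable def As (s : Fin k) (w : Fin k → Y) : Finset X :=
  A.filter fun x => ∀ i, i < s → R x (w i)

open scoped Classical in
/-- columns compatible with these rows -/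
noncomputable def Bs (s : Fin k) (w : Fin k → Y) : Finset Y :=
  B.filter fun y => ∀ x ∈ As R A s w, R x y

lemma As_update [DecidableEq (Fin k)] (s : Fin k) (w : Fin k → Y) (y : Y) :
    As R A s (Function.update w s y) = As R A s w := by
  classical
  unfold As
  ext x
  simp only [Finset.mem_filter]
  refine and_congr_right fun _ => forall_congr' fun i => forall_congr' fun hi => ?_
  rw [Function.update_of_ne (ne_of_lt hi)]

lemma Bs_update [DecidableEq (Fin k)] (s : Fin k) (w : Fin k → Y) (y : Y) :
    Bs R A B s (Function.update w s y) = Bs R A B s w := by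
  unfold Bs
  rw [As_update]

/-- few bad indices -/
lemma few (r : ℕ)
    (hpat : ∀ (m : ℕ) (x : Fin m → X) (y : Fin m → Y), (∀ i, x i ∈ A) → (∀ i, y i ∈ B) →
      (∀ i, ¬ R (x i) (y i)) → (∀ i j, i < j → R (x j) (y i)) → m ≤ r)
    (w : Fin k → Y) (hw : ∀ i, w i ∈ B) (S : Finset (Fin k))
    (hS : ∀ s ∈ S, w s ∉ Bs R A B s w) : S.card ≤ r := by
  classical
  set e := S.orderEmbOfFin rfl with he
  have hmem : ∀ i, e i ∈ S := fun i => Finset.orderEmbOfFin_mem S rfl i
  have hex : ∀ i, ∃ x ∈ As R A (e i) w, ¬ R x (w (e i)) := by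
    intro i
    by_contra h
    push Not at h
    apply hS _ (hmem i)
    unfold Bs
    exact Finset.mem_filter.mpr ⟨hw _, h⟩
  choose x hx hxR using hex
  refine hpat S.card x (fun i => w (e i)) (fun i => (Finset.mem_filter.mp (hx i)).1)
    (fun i => hw _) hxR ?_
  intro i j hij
  exact (Finset.mem_filter.mp (hx j)).2 (e i) (e.strictMono hij)

open scoped Classical in
/-- averaging over one coordinate -/
lemma avg (s : Fin k) :
    (∑ w ∈ Fintype.piFinset fun _ : Fin k => B,
      (((As R A s w).card : ℝ) * if w s ∈ Bs R A B s w then 1 else 0)) * (B.card : ℝ) =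
    ∑ w ∈ Fintype.piFinset fun _ : Fin k => B, ((As R A s w).card : ℝ) * (Bs R A B s w).card := by
  have h1 : (∑ w ∈ Fintype.piFinset fun _ : Fin k => B,
      (((As R A s w).card : ℝ) * if w s ∈ Bs R A B s w then 1 else 0)) * (B.card : ℝ) =
      ∑ p ∈ (Fintype.piFinset fun _ : Fin k => B) ×ˢ B,
        (((As R A s p.1).card : ℝ) * if p.1 s ∈ Bs R A B s p.1 then 1 else 0) := by
    rw [Finset.sum_product, Finset.sum_mul]
    refine Finset.sum_congr rfl fun w _ => ?_
    show _ = ∑ _y ∈ B, (((As R A s w).card : ℝ) * if w s ∈ Bs R A B s w then 1 else 0)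
    rw [Finset.sum_const, nsmul_eq_mul, mul_comm]
  have h2 : ∑ w ∈ Fintype.piFinset fun _ : Fin k => B,
      ((As R A s w).card : ℝ) * (Bs R A B s w).card =
      ∑ p ∈ (Fintype.piFinset fun _ : Fin k => B) ×ˢ B,
        (((As R A s p.1).card : ℝ) * if p.2 ∈ Bs R A B s p.1 then 1 else 0) := by
    rw [Finset.sum_product]
    refine Finset.sum_congr rfl fun w _ => ?_
    dsimp only
    rw [← Finset.mul_sum, Finset.sum_boole]
    congr 3
    ext y
    simp only [Finset.mem_filter]
    constructor
    · intro h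
      exact ⟨(Finset.mem_filter.mp h).1, h⟩
    · exact fun h => h.2
  rw [h1, h2]
  refine Finset.sum_nbij' (fun p => (Function.update p.1 s p.2, p.1 s))
    (fun p => (Function.update p.1 s p.2, p.1 s)) ?_ ?_ ?_ ?_ ?_
  · intro p hp
    rw [Finset.mem_product, Fintype.mem_piFinset] at hp ⊢
    refine ⟨fun i => ?_, hp.1 s⟩
    by_cases hi : i = s
    · subst hi
      simpa using hp.2
    · simpa [Function.update_of_ne hi] using hp.1 i
  · intro p hp
    rw [Finset.mem_product, Fintype.mem_piFinset] at hp ⊢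
    refine ⟨fun i => ?_, hp.1 s⟩
    by_cases hi : i = s
    · subst hi
      simpa using hp.2
    · simpa [Function.update_of_ne hi] using hp.1 i
  · intro p _
    simp
  · intro p _
    simp
  · intro p _
    simp only [As_update, Bs_update]

end WIN_

open WIN_ in
theorem win_proof : Stmt_WIN := by
  classical
  intro X Y R A B r z hA hB hr hz hz1 hS hpat
  by_contra hcon
  push Not at hcon
  have hAc : (0 : ℝ) < A.card := by exact_mod_cast hA.card_pos
  have hBc : (0 : ℝ) < B.card := by exact_mod_cast hB.card_pos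
  obtain ⟨k, hk⟩ : ∃ k, k = 2 * r := ⟨_, rfl⟩
  set W : Finset (Fin k → Y) := Fintype.piFinset fun _ : Fin k => B with hW
  have hWne : W.Nonempty := by
    obtain ⟨b, hb⟩ := hB
    exact ⟨fun _ => b, Fintype.mem_piFinset.mpr fun _ => hb⟩
  have hWc : (W.card : ℝ) = (B.card : ℝ) ^ k := by
    rw [hW, Fintype.card_piFinset]
    simp
  have hkr : (k : ℝ) = 2 * r := by rw [hk]; push_cast; ring
  have hr1 : (1 : ℝ) ≤ r := by exact_mod_cast hr
  -- the weighted count
  set T : ℝ := ∑ x ∈ A, ∑ w ∈ W.filter (fun w => ∀ i, R x (w i)),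
    ∑ s : Fin k, (if w s ∈ Bs R A B s w then (1 : ℝ) else 0) with hT
  -- lower bound
  have hlow : (r : ℝ) * (A.card * (z * B.card) ^ k) ≤ T := by
    have e1 : ∀ x ∈ A, ((W.filter (fun w => ∀ i, R x (w i))).card : ℝ)
        = ((B.filter (R x)).card : ℝ) ^ k := by
      intro x _
      have : W.filter (fun w => ∀ i, R x (w i)) = Fintype.piFinset fun _ : Fin k => B.filter (R x) := by
        ext w
        simp only [hW, Finset.mem_filter, Fintype.mem_piFinset]
        exact ⟨fun h i => ⟨h.1 i, h.2 i⟩, fun h => ⟨fun i => (h i).1, fun i => (h i).2⟩⟩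
      rw [this, Fintype.card_piFinset]
      simp
    have e2 : ∀ x ∈ A, ∀ w ∈ W.filter (fun w => ∀ i, R x (w i)),
        (r : ℝ) ≤ ∑ s : Fin k, (if w s ∈ Bs R A B s w then (1 : ℝ) else 0) := by
      intro x _ w hw
      have hwB : ∀ i, w i ∈ B := Fintype.mem_piFinset.mp (Finset.mem_filter.mp hw).1
      rw [Finset.sum_boole]
      have h1 := few R A B r hpat w hwB (Finset.univ.filter fun s => w s ∉ Bs R A B s w)
        (fun s hs => (Finset.mem_filter.mp hs).2)
      have h2 := Finset.card_filter_add_card_filter_not (s := (Finset.univ : Finset (Fin k)))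
        (fun s => w s ∈ Bs R A B s w)
      rw [Finset.card_univ, Fintype.card_fin] at h2
      have : r ≤ (Finset.univ.filter fun s => w s ∈ Bs R A B s w).card := by omega
      exact_mod_cast this
    have e3 : (r : ℝ) * ∑ x ∈ A, ((B.filter (R x)).card : ℝ) ^ k ≤ T := by
      rw [hT, Finset.mul_sum]
      refine Finset.sum_le_sum fun x hx => ?_
      rw [← e1 x hx]
      calc (r : ℝ) * ((W.filter (fun w => ∀ i, R x (w i))).card : ℝ)
          = ∑ w ∈ W.filter (fun w => ∀ i, R x (w i)), (r : ℝ) := by
            rw [Finset.sum_const, nsmul_eq_mul, mul_comm]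
        _ ≤ _ := Finset.sum_le_sum fun w hw => e2 x hx w hw
    have e4 : z * ((A.card : ℝ) * B.card) ≤ ∑ x ∈ A, ((B.filter (R x)).card : ℝ) := by
      refine hS.trans (le_of_eq ?_)
      unfold S2
      refine Finset.sum_congr rfl fun x _ => ?_
      rw [Finset.sum_boole]
    have e5 : (A.card : ℝ) * (z * B.card) ^ k ≤ ∑ x ∈ A, ((B.filter (R x)).card : ℝ) ^ k := by
      obtain ⟨m, hm⟩ : ∃ m, k = m + 1 := ⟨k - 1, by omega⟩
      rw [hm]
      have h3 := pow_sum_div_card_le_sum_pow (s := A)
        (f := fun x => ((B.filter (R x)).card : ℝ)) (fun _ _ => Nat.cast_nonneg _) m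
      refine le_trans ?_ h3
      rw [le_div_iff₀ (by positivity)]
      calc (A.card : ℝ) * (z * B.card) ^ (m + 1) * (A.card : ℝ) ^ m
          = (z * ((A.card : ℝ) * B.card)) ^ (m + 1) := by ring
        _ ≤ _ := pow_le_pow_left₀ (by positivity) e4 _
    calc (r : ℝ) * (A.card * (z * B.card) ^ k) ≤ r * ∑ x ∈ A, ((B.filter (R x)).card : ℝ) ^ k :=
          mul_le_mul_of_nonneg_left e5 (by positivity)
      _ ≤ T := e3
  -- upper bound
  have hup : T < r * z ^ k * A.card * (B.card : ℝ) ^ k := by
    have f1 : T ≤ ∑ s : Fin k, ∑ w ∈ W,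
        (((As R A s w).card : ℝ) * if w s ∈ Bs R A B s w then 1 else 0) := by
      have g1 : T = ∑ s : Fin k, ∑ w ∈ W, ∑ x ∈ A.filter (fun x => ∀ i, R x (w i)),
          (if w s ∈ Bs R A B s w then (1 : ℝ) else 0) := by
        rw [hT]
        calc _ = ∑ x ∈ A, ∑ w ∈ W, (if ∀ i, R x (w i) then
              ∑ s : Fin k, (if w s ∈ Bs R A B s w then (1 : ℝ) else 0) else 0) := by
              refine Finset.sum_congr rfl fun x _ => ?_
              rw [Finset.sum_filter]
          _ = ∑ w ∈ W, ∑ x ∈ A, (if ∀ i, R x (w i) then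
              ∑ s : Fin k, (if w s ∈ Bs R A B s w then (1 : ℝ) else 0) else 0) :=
              Finset.sum_comm
          _ = ∑ w ∈ W, ∑ x ∈ A.filter (fun x => ∀ i, R x (w i)),
              ∑ s : Fin k, (if w s ∈ Bs R A B s w then (1 : ℝ) else 0) := by
              refine Finset.sum_congr rfl fun w _ => ?_
              rw [Finset.sum_filter]
          _ = ∑ w ∈ W, ∑ s : Fin k, ∑ x ∈ A.filter (fun x => ∀ i, R x (w i)),
              (if w s ∈ Bs R A B s w then (1 : ℝ) else 0) := by
              refine Finset.sum_congr rfl fun w _ => ?_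
              rw [Finset.sum_comm]
          _ = _ := Finset.sum_comm
      rw [g1]
      refine Finset.sum_le_sum fun s _ => Finset.sum_le_sum fun w _ => ?_
      rw [Finset.sum_const, nsmul_eq_mul]
      refine mul_le_mul_of_nonneg_right ?_ (by split_ifs <;> norm_num)
      exact_mod_cast Finset.card_le_card (by
        intro x hx
        rw [Finset.mem_filter] at hx
        exact Finset.mem_filter.mpr ⟨hx.1, fun i _ => hx.2 i⟩)
    have f2 : ∀ s : Fin k, (∑ w ∈ W,
        (((As R A s w).card : ℝ) * if w s ∈ Bs R A B s w then 1 else 0)) * (B.card : ℝ) <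
        (1 / 2 * z ^ k * A.card * (B.card : ℝ) ^ k) * B.card := by
      intro s
      rw [hW, avg R A B s, ← hW]
      calc ∑ w ∈ W, ((As R A s w).card : ℝ) * (Bs R A B s w).card
          < ∑ w ∈ W, 1 / 2 * z ^ k * ((A.card : ℝ) * B.card) := by
            refine Finset.sum_lt_sum_of_nonempty hWne fun w _ => ?_
            have h7 := hcon (As R A s w) (Finset.filter_subset _ _) (Bs R A B s w)
              (Finset.filter_subset _ _) (fun x hx y hy => (Finset.mem_filter.mp hy).2 x hx)
            rw [← hk] at h7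
            exact h7
        _ = (1 / 2 * z ^ k * A.card * (B.card : ℝ) ^ k) * B.card := by
            rw [Finset.sum_const, nsmul_eq_mul, hWc]; ring
    have f3 : ∀ s : Fin k, (∑ w ∈ W,
        (((As R A s w).card : ℝ) * if w s ∈ Bs R A B s w then 1 else 0)) <
        1 / 2 * z ^ k * A.card * (B.card : ℝ) ^ k := fun s =>
      lt_of_mul_lt_mul_right (f2 s) hBc.le
    have hne : (Finset.univ : Finset (Fin k)).Nonempty := by
      have : NeZero k := ⟨by omega⟩
      exact ⟨0, Finset.mem_univ _⟩
    calc T ≤ _ := f1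
      _ < ∑ _s : Fin k, 1 / 2 * z ^ k * A.card * (B.card : ℝ) ^ k :=
          Finset.sum_lt_sum_of_nonempty hne fun s _ => f3 s
      _ = r * z ^ k * A.card * (B.card : ℝ) ^ k := by
          rw [Finset.sum_const, Finset.card_univ, Fintype.card_fin, nsmul_eq_mul, hkr]
          ring
  have : (r : ℝ) * (A.card * (z * B.card) ^ k) = r * z ^ k * A.card * (B.card : ℝ) ^ k := by
    rw [mul_pow]; ring
  linarith

end Pool.Agent.LSB
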